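import Pool.Agent.Helper7.BU.Plane

/-!
# Rays mapped into lines through the origin
-/

set_option autoImplicit false
set_option maxHeartbeats 400000

noncomputable section

open scoped ComplexConjugate Topology
open Complex Filter MeasureTheory intervalIntegral

namespace Pool.Agent.Helper7.BU

section

variable {f : ℂ → ℂ} (hf : ContDiff ℝ 1 f)

include hf

/-- the derivative along a ray -/
theorem ray_deriv (θ : ℝ) (u : ℂ) (r : ℝ) :
    HasDerivAt (fun s => (f (cz s θ) * conj u).re) (AA f r θ * conj u).re r :=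
  hd_re ((hasDerivAt_rad hf r θ).mul_const _)

theorem ray_im {θ : ℝ} {u : ℂ} (h : ∀ s, 0 < s → (f (cz s θ) * conj u).im = 0) {r : ℝ}
    (hr : 0 < r) : (AA f r θ * conj u).im = 0 := by
  have h1 := hd_im ((hasDerivAt_rad hf r θ).mul_const (conj u))
  have h2 : (fun s => (f (cz s θ) * conj u).im) =ᶠ[𝓝 r] fun _ => (0 : ℝ) := by
    filter_upwards [eventually_gt_nhds hr] with s hs
    exact h s hs
  exact (h1.congr_of_eventuallyEq h2.symm).unique (hasDerivAt_const r (0 : ℝ))

theorem ray_tan {φ : ℝ → ℝ} {κ θ r : ℝ} (hφ : HasDerivAt φ κ θ) (hr : 0 < r)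
    (h : ∀ t, (f (cz r t) * conj (exp (φ t * I))).im = 0) :
    (TT f r θ * conj (exp (φ θ * I))).im = κ * (f (cz r θ) * conj (exp (φ θ * I))).re / r := by
  have h1 : HasDerivAt (fun t => exp (φ t * I)) (exp (φ θ * I) * (κ * I)) θ :=
    (hφ.ofReal_comp.mul_const I).cexp
  have h2 := hd_conj h1
  have h3 := hd_im ((hasDerivAt_angle hf r θ).mul h2)
  have h4 : (fun t => (f (cz r t) * conj (exp (φ t * I))).im) = fun _ => (0 : ℝ) := funext h
  have h5 : ((r * TT f r θ) * conj (exp (φ θ * I)) +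
      f (cz r θ) * conj (exp (φ θ * I) * (κ * I))).im = 0 := by
    have h6 : HasDerivAt (fun t => (f (cz r t) * conj (exp (φ t * I))).im)
      ((r * TT f r θ) * conj (exp (φ θ * I)) +
        f (cz r θ) * conj (exp (φ θ * I) * (κ * I))).im θ := h3
    rw [h4] at h6
    exact h6.unique (hasDerivAt_const θ (0 : ℝ))
  have e : (r * TT f r θ) * conj (exp (φ θ * I)) + f (cz r θ) * conj (exp (φ θ * I) * (κ * I)) =
      r * (TT f r θ * conj (exp (φ θ * I))) - κ * (I * (f (cz r θ) * conj (exp (φ θ * I)))) := by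
    rw [map_mul, map_mul, conj_I, conj_ofReal]
    ring
  rw [e, sub_im, im_ofReal_mul, im_ofReal_mul, I_mul_im] at h5
  rw [eq_div_iff hr.ne']
  linarith

/-- the calibration on a ray -/
theorem ray_step {φ : ℝ → ℝ} {κ θ r : ℝ} (hφ : HasDerivAt φ κ θ) (hκ : κ ≤ 0 ∨ 1 ≤ κ)
    (hr : 0 < r) (h : ∀ s t, 0 < s → (f (cz s t) * conj (exp (φ t * I))).im = 0) :
    ∃ D, HasDerivAt (fun s => Hs κ s |(f (cz s θ) * conj (exp (φ θ * I))).re|) D r ∧
      D ≤ r * LP f r θ := by
  obtain ⟨g, hg⟩ : ∃ g : ℝ → ℝ, g = fun s => (f (cz s θ) * conj (exp (φ θ * I))).re := ⟨_, rfl⟩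
  have hgd : HasDerivAt g (AA f r θ * conj (exp (φ θ * I))).re r := by
    rw [hg]; exact ray_deriv hf θ _ r
  have hLP : L2 (AA f r θ * conj (exp (φ θ * I))).re (κ * g r / r) ≤ LP f r θ := by
    have h1 := LS_polar (f := f) (r := r) (θ := θ) (u := exp (φ θ * I)) (norm_exp_I _)
      (Or.inr (ray_im hf (fun s hs => h s θ hs) hr))
    rw [ray_tan hf hφ hr (fun t => h r t hr)] at h1
    rw [hg]
    exact h1
  have e : (fun s => Hs κ s |(f (cz s θ) * conj (exp (φ θ * I))).re|) =
      fun s => Hs κ s |g s| := by rw [hg]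
  rw [e]
  generalize (AA f r θ * conj (exp (φ θ * I))).re = g' at hgd hLP
  rcases lt_trichotomy (g r) 0 with h0 | h0 | h0
  · have hab : HasDerivAt (fun s => |g s|) (-g') r := by
      refine hgd.neg.congr_of_eventuallyEq ?_
      filter_upwards [hgd.continuousAt.eventually_lt_const h0] with s hs
      rw [abs_of_neg hs]; rfl
    refine ⟨_, hasDerivAt_Hs hab, (hs_le hκ hr (abs_nonneg _)).trans ?_⟩
    refine mul_le_mul_of_nonneg_left ?_ hr.le
    rw [abs_of_neg h0, mul_neg, neg_div, L2_neg]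
    exact hLP
  · refine ⟨0, ?_, ?_⟩
    · have hO : (fun s => g s - g r) =O[𝓝 r] fun s => s - r := hgd.differentiableAt.isBigO_sub
      rw [h0] at hO
      simp only [sub_zero] at hO
      have h1 : (fun s => Hs κ s |g s|) =O[𝓝 r] fun s => (g s) ^ 2 := by
        refine Asymptotics.IsBigO.of_bound (|κ| / 2) ?_
        filter_upwards [eventually_gt_nhds hr] with s hs
        have h2 := abs_Hs_le' (N := κ) hs.le (abs_nonneg (g s))
        rw [Real.norm_eq_abs, Real.norm_of_nonneg (sq_nonneg _)]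
        rw [sq_abs] at h2
        linarith
      have h2 : (fun s => (g s) ^ 2) =O[𝓝 r] fun s => (s - r) ^ 2 := hO.pow 2
      have h3 : (fun s : ℝ => (s - r) ^ 2) =o[𝓝 r] fun s => s - r := by
        have h4 := Asymptotics.isLittleO_pow_sub_sub (E' := ℝ) r (m := 2) (by norm_num)
        refine h4.congr_left fun s => ?_
        rw [Real.norm_eq_abs, sq_abs]
      have h4 := (h1.trans h2).trans_isLittleO h3
      rw [hasDerivAt_iff_isLittleO]
      have h5 : Hs κ r |g r| = 0 := by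
        have := abs_Hs_le (N := κ) hr.le (abs_nonneg (g r))
        rw [h0, abs_zero, mul_zero] at this
        rw [h0, abs_zero]
        exact abs_eq_zero.1 (le_antisymm this (abs_nonneg _))
      refine h4.congr_left fun s => ?_
      rw [h5, smul_zero]; ring
    · rw [h0, mul_zero, zero_div] at hLP
      exact mul_nonneg hr.le ((L2_zero_nonneg _).trans hLP)
  · have hab : HasDerivAt (fun s => |g s|) g' r := by
      refine hgd.congr_of_eventuallyEq ?_
      filter_upwards [hgd.continuousAt.eventually_const_lt h0] with s hs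
      rw [abs_of_pos hs]
    refine ⟨_, hasDerivAt_Hs hab, (hs_le hκ hr (abs_nonneg _)).trans ?_⟩
    refine mul_le_mul_of_nonneg_left ?_ hr.le
    rw [abs_of_pos h0]
    exact hLP

/-- the integral along a ray -/
theorem ray_nonneg {φ : ℝ → ℝ} {κ θ : ℝ} (hφ : HasDerivAt φ κ θ) (hκ : κ ≤ 0 ∨ 1 ≤ κ)
    (h : ∀ s t, 0 < s → (f (cz s t) * conj (exp (φ t * I))).im = 0) {M : ℝ} (hM : 0 < M)
    (hz : f (cz M θ) = 0) : 0 ≤ ∫ r in (0 : ℝ)..M, r * LP f r θ := by
  obtain ⟨Q, hQ⟩ : ∃ Q : ℝ → ℝ, Q = fun s => Hs κ s |(f (cz s θ) * conj (exp (φ θ * I))).re| :=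
    ⟨_, rfl⟩
  have hstep : ∀ r : ℝ, ∃ D, 0 < r → HasDerivAt Q D r ∧ D ≤ r * LP f r θ := by
    intro r
    by_cases hr : 0 < r
    · obtain ⟨D, h1, h2⟩ := ray_step hf hφ hκ hr h
      exact ⟨D, fun _ => ⟨by rw [hQ]; exact h1, h2⟩⟩
    · exact ⟨0, fun h' => absurd h' hr⟩
  choose D hD using hstep
  have hLc : Continuous fun r => LP f r θ := by
    have h2 : Continuous (fun s : ℝ => ((s, θ) : ℝ × ℝ)) :=
      Continuous.prodMk continuous_id continuous_const
    have h3 := (LP_continuous hf).comp h2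
    exact h3
  have hφc : Continuous fun r => r * LP f r θ := continuous_id.mul hLc
  have hgc : Continuous fun s => |(f (cz s θ) * conj (exp (φ θ * I))).re| :=
    continuous_abs.comp (continuous_re.comp ((f_cont_rad hf θ).mul continuous_const))
  have hQb : ∀ r, 0 ≤ r → |Q r| ≤ r * |(f (cz r θ) * conj (exp (φ θ * I))).re| := by
    intro r hr
    rw [hQ]
    exact abs_Hs_le hr (abs_nonneg _)
  have hQM : Q M = 0 := by
    have h1 := hQb M hM.le
    rw [hz, zero_mul, zero_re, abs_zero, mul_zero] at h1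
    exact abs_eq_zero.1 (le_antisymm h1 (abs_nonneg _))
  have key : ∀ δ, 0 < δ → δ < M →
      -(δ * |(f (cz δ θ) * conj (exp (φ θ * I))).re|) ≤ ∫ r in δ..M, r * LP f r θ := by
    intro δ h1 h2
    have h3 := sub_le_integral_of_hasDeriv_right_of_le (g := Q) (g' := D) h2.le
      (fun x hx => (hD x (h1.trans_le hx.1)).1.continuousAt.continuousWithinAt)
      (fun x hx => (hD x (h1.trans hx.1)).1.hasDerivWithinAt)
      (hφc.integrableOn_Icc) (fun x hx => (hD x (h1.trans hx.1)).2)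
    rw [hQM] at h3
    have h4 := hQb δ h1.le
    rw [abs_le] at h4
    linarith [h4.2]
  have hlim1 : Tendsto (fun δ : ℝ => -(δ * |(f (cz δ θ) * conj (exp (φ θ * I))).re|)) (𝓝[>] 0)
      (𝓝 0) := by
    have h1 : Tendsto (fun δ : ℝ => -(δ * |(f (cz δ θ) * conj (exp (φ θ * I))).re|)) (𝓝 0)
        (𝓝 (-(0 * |(f (cz 0 θ) * conj (exp (φ θ * I))).re|))) :=
      (continuous_id.mul hgc).neg.continuousAt
    rw [zero_mul, neg_zero] at h1
    exact h1.mono_left nhdsWithin_le_nhds
  have hlim2 : Tendsto (fun δ : ℝ => ∫ r in δ..M, r * LP f r θ) (𝓝[>] 0)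
      (𝓝 (∫ r in (0 : ℝ)..M, r * LP f r θ)) := by
    have h1 : Continuous fun δ : ℝ => ∫ r in δ..M, r * LP f r θ := by
      have h2 : (fun δ : ℝ => ∫ r in δ..M, r * LP f r θ) =
          fun δ => -∫ r in M..δ, r * LP f r θ := by
        funext δ; rw [integral_symm]
      rw [h2]
      exact (continuous_primitive (fun a b => hφc.intervalIntegrable a b) M).neg
    exact (h1.continuousAt (x := 0)).tendsto.mono_left nhdsWithin_le_nhds
  refine le_of_tendsto_of_tendsto hlim1 hlim2 ?_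
  filter_upwards [Ioo_mem_nhdsGT hM] with δ hδ
  exact key δ hδ.1 hδ.2

end

/-- the hypothesis on rays -/
def RayHyp (f : ℂ → ℂ) (K : Set ℝ) : Prop :=
  ∃ φ κ : ℝ → ℝ, (∀ θ, HasDerivAt φ (κ θ) θ ∧ κ θ ∈ K) ∧
    ∀ s θ, 0 < s → (f (cz s θ) * conj (exp (φ θ * I))).im = 0

/-- **the ray class** -/
theorem sv_rays {f : ℂ → ℂ} (hf : ContDiff ℝ 1 f) (hs : HasCompactSupport f)
    (hyp : RayHyp f (Set.Iic 0 ∪ Set.Ici 1)) : Sv f := by
  obtain ⟨φ, κ, hφ, him⟩ := hyp
  obtain ⟨M, hM, hz⟩ := exists_radius hs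
  have hpi := Real.pi_pos
  unfold Sv
  have hc : Continuous fun z => LS (dz f z) (db f z) :=
    LS_continuous.comp ((dz_continuous hf).prodMk (db_continuous hf))
  rw [plane_eq hc hM (fun z h => by
    obtain ⟨h1, h2⟩ := dz_zero_of (hz z h).2
    rw [h1, h2, LS_zero])]
  have h1 : ∫ r in (0 : ℝ)..M, r * ∫ θ in (-Real.pi)..Real.pi, LS (dz f (cz r θ)) (db f (cz r θ)) =
      ∫ θ in (-Real.pi)..Real.pi, ∫ r in (0 : ℝ)..M, r * LP f r θ := by
    have h2 : ∀ r : ℝ, r * ∫ θ in (-Real.pi)..Real.pi, LS (dz f (cz r θ)) (db f (cz r θ)) =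
        ∫ θ in Set.Ioc (-Real.pi) Real.pi, r * LP f r θ := by
      intro r
      rw [MeasureTheory.integral_const_mul, integral_of_le (by linarith)]
      rfl
    simp_rw [h2]
    rw [integral_of_le hM.le, integral_of_le (by linarith)]
    simp_rw [integral_of_le hM.le]
    apply integral_integral_swap
    have hcc : Continuous (fun p : ℝ × ℝ => p.1 * LP f p.1 p.2) :=
      continuous_fst.mul (LP_continuous hf)
    have h3 : IntegrableOn (fun p : ℝ × ℝ => p.1 * LP f p.1 p.2)
        (Set.Icc (0 : ℝ) M ×ˢ Set.Icc (-Real.pi) Real.pi) (volume.prod volume) :=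
      hcc.continuousOn.integrableOn_compact (isCompact_Icc.prod isCompact_Icc)
    have h4 := h3.mono_set (Set.prod_mono (Set.Ioc_subset_Icc_self (a := (0 : ℝ)) (b := M))
      (Set.Ioc_subset_Icc_self (a := -Real.pi) (b := Real.pi)))
    rw [IntegrableOn, ← Measure.prod_restrict] at h4
    exact h4
  rw [h1]
  refine intervalIntegral.integral_nonneg (by linarith) fun θ _ => ?_
  exact ray_nonneg hf (hφ θ).1 (by simpa using (hφ θ).2) him hM (hz _ (by
    rw [norm_cz, abs_of_pos hM])).1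

end Pool.Agent.Helper7.BU
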