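import Pool.Agent.Helper7.BU.Layer
import Pool.Agent.Helper7.BU.Rays

/-!
# From the Burkholder–Šverák function to the Burkholder functions
-/

set_option autoImplicit false
set_option maxHeartbeats 400000

noncomputable section

open scoped ComplexConjugate Topology
open Complex Filter MeasureTheory

namespace Pool.Agent.Helper7.BU

/-- Burkholder's function -/
def BF (p : ℝ) (z w : ℂ) : ℝ :=
  p * (1 - 1 / max p (p / (p - 1))) ^ (p - 1) *
    ((max p (p / (p - 1)) - 1) * ‖z‖ - ‖w‖) * (‖z‖ + ‖w‖) ^ (p - 1)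

section

variable {f : ℂ → ℂ} (hf : ContDiff ℝ 1 f) (hs : HasCompactSupport f)

include hf hs

theorem exists_S : ∃ S : ℝ, 0 < S ∧ ∀ z, ‖dz f z‖ + ‖db f z‖ ≤ S := by
  obtain ⟨M, hM, hz⟩ := exists_radius hs
  have hc : Continuous fun z => ‖dz f z‖ + ‖db f z‖ :=
    (dz_continuous hf).norm.add (db_continuous hf).norm
  obtain ⟨C, hC⟩ := (isCompact_closedBall (0 : ℂ) M).exists_bound_of_continuousOn hc.continuousOn
  refine ⟨max C 0 + 1, by positivity, fun z => ?_⟩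
  by_cases h : z ∈ Metric.closedBall (0 : ℂ) M
  · have h1 := hC z h
    rw [Real.norm_eq_abs] at h1
    have h2 := le_abs_self (‖dz f z‖ + ‖db f z‖)
    have h3 := le_max_left C 0
    linarith
  · rw [Metric.mem_closedBall, dist_zero_right, not_le] at h
    obtain ⟨h1, h2⟩ := dz_zero_of (hz z h.le).2
    rw [h1, h2, norm_zero, add_zero]
    positivity

theorem burk_lt {p : ℝ} (hp : 1 < p) (hp2 : p < 2)
    (h : ∀ t : ℝ, 0 < t → 0 ≤ ∫ z, LSr (‖dz f z‖ / t) (‖db f z‖ / t)) :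
    0 ≤ ∫ z, BF p (dz f z) (db f z) := by
  obtain ⟨M, hM, hz⟩ := exists_radius hs
  obtain ⟨S, hS0, hS⟩ := exists_S hf hs
  have q : 0 < p - 1 := by linarith
  have key := layer_nonneg (M := M) hp hp2.ne (dz_continuous hf).norm (db_continuous hf).norm
    (fun z => norm_nonneg _) (fun z => norm_nonneg _) hS0 hS
    (fun z h => by
      obtain ⟨h1, h2⟩ := dz_zero_of (hz z h).2
      rw [h1, h2, norm_zero]; exact ⟨rfl, rfl⟩) (integral_det hf hs) h
  have h1 : (0 : ℝ) < 2 / (p * (2 - p)) := div_pos (by norm_num) (mul_pos (by linarith) (by linarith))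
  have h2 := nonneg_of_mul_nonneg_right key h1
  have hmax : max p (p / (p - 1)) = p / (p - 1) := by
    refine max_eq_right ?_
    rw [le_div_iff₀ q]
    nlinarith
  have hp0 : p ≠ 0 := by linarith
  have hB : ∀ z, BF p (dz f z) (db f z) = p * (1 - 1 / (p / (p - 1))) ^ (p - 1) *
      ((‖dz f z‖ / (p - 1) - ‖db f z‖) * (‖dz f z‖ + ‖db f z‖) ^ (p - 1)) := by
    intro z
    unfold BF
    rw [hmax]
    have : (p / (p - 1) - 1) * ‖dz f z‖ = ‖dz f z‖ / (p - 1) := by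
      field_simp
      ring
    rw [this]
    ring
  simp_rw [hB]
  rw [MeasureTheory.integral_const_mul]
  refine mul_nonneg (mul_nonneg (by linarith) (Real.rpow_nonneg ?_ _)) h2
  have : 1 / (p / (p - 1)) ≤ 1 := by
    rw [one_div_div, div_le_one (by linarith)]; linarith
  linarith

theorem burk_gt {p : ℝ} (hp2 : 2 < p)
    (h : ∀ t : ℝ, 0 < t → 0 ≤ ∫ z, LSr (‖db f z‖ / t) (‖dz f z‖ / t)) :
    0 ≤ ∫ z, BF p (dz f z) (db f z) := by
  obtain ⟨M, hM, hz⟩ := exists_radius hs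
  obtain ⟨S, hS0, hS⟩ := exists_S hf hs
  have q : 0 < p - 1 := by linarith
  have hdet : ∫ z, (‖db f z‖ ^ 2 - ‖dz f z‖ ^ 2) = 0 := by
    have := integral_det hf hs
    rw [← neg_eq_zero, ← MeasureTheory.integral_neg]
    simpa using this
  have key := layer_nonneg (M := M) (by linarith : 1 < p) hp2.ne' (db_continuous hf).norm
    (dz_continuous hf).norm
    (fun z => norm_nonneg _) (fun z => norm_nonneg _) hS0 (fun z => by rw [add_comm]; exact hS z)
    (fun z h => by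
      obtain ⟨h1, h2⟩ := dz_zero_of (hz z h).2
      rw [h1, h2, norm_zero]; exact ⟨rfl, rfl⟩) hdet h
  have h1 : 2 / (p * (2 - p)) < 0 := div_neg_of_pos_of_neg (by norm_num)
    (mul_neg_of_pos_of_neg (by linarith) (by linarith))
  have h2 : ∫ z, (‖db f z‖ / (p - 1) - ‖dz f z‖) * (‖db f z‖ + ‖dz f z‖) ^ (p - 1) ≤ 0 := by
    by_contra hcon
    have := mul_neg_of_neg_of_pos h1 (not_le.1 hcon)
    linarith
  have hmax : max p (p / (p - 1)) = p := by
    refine max_eq_left ?_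
    rw [div_le_iff₀ q]
    nlinarith
  have hp0 : p ≠ 0 := by linarith
  have hB : ∀ z, BF p (dz f z) (db f z) = -(p * (1 - 1 / p) ^ (p - 1) * (p - 1)) *
      ((‖db f z‖ / (p - 1) - ‖dz f z‖) * (‖db f z‖ + ‖dz f z‖) ^ (p - 1)) := by
    intro z
    unfold BF
    rw [hmax, add_comm ‖db f z‖]
    field_simp
    ring
  simp_rw [hB]
  rw [MeasureTheory.integral_const_mul]
  have h3 : 0 ≤ p * (1 - 1 / p) ^ (p - 1) * (p - 1) := by
    refine mul_nonneg (mul_nonneg (by linarith) (Real.rpow_nonneg ?_ _)) q.le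
    have : 1 / p ≤ 1 := by
      rw [div_le_one (by linarith)]; linarith
    linarith
  nlinarith

theorem burk_two : ∫ z, BF 2 (dz f z) (db f z) = 0 := by
  have h := integral_det hf hs
  have hB : ∀ z, BF 2 (dz f z) (db f z) = ‖dz f z‖ ^ 2 - ‖db f z‖ ^ 2 := by
    intro z
    unfold BF
    norm_num
    ring
  simp_rw [hB]
  exact h

end

/-! ### Scaling and conjugation -/

theorem fderiv_scale {f : ℂ → ℂ} (hf : ContDiff ℝ 1 f) (c : ℂ) (z w : ℂ) :
    fderiv ℝ (fun z => c * f z) z w = c * fderiv ℝ f z w := by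
  have h1 : HasFDerivAt f (fderiv ℝ f z) z := (hf.differentiable one_ne_zero _).hasFDerivAt
  have h2 := h1.const_mul c
  rw [h2.fderiv]
  rfl

theorem dz_scale {f : ℂ → ℂ} (hf : ContDiff ℝ 1 f) (c : ℂ) (z : ℂ) :
    dz (fun z => c * f z) z = c * dz f z := by
  unfold dz
  rw [fderiv_scale hf, fderiv_scale hf]
  ring

theorem db_scale {f : ℂ → ℂ} (hf : ContDiff ℝ 1 f) (c : ℂ) (z : ℂ) :
    db (fun z => c * f z) z = c * db f z := by
  unfold db
  rw [fderiv_scale hf, fderiv_scale hf]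
  ring

theorem fderiv_cj {f : ℂ → ℂ} (hf : ContDiff ℝ 1 f) (z w : ℂ) :
    fderiv ℝ (fun z => conj (f z)) z w = conj (fderiv ℝ f z w) := by
  have h1 : HasFDerivAt f (fderiv ℝ f z) z := (hf.differentiable one_ne_zero _).hasFDerivAt
  have h2 : HasFDerivAt (fun z => conj (f z))
      (Complex.conjCLE.toContinuousLinearMap.comp (fderiv ℝ f z)) z :=
    (Complex.conjCLE.toContinuousLinearMap).hasFDerivAt.comp z h1
  rw [h2.fderiv]
  rfl

theorem dz_cj {f : ℂ → ℂ} (hf : ContDiff ℝ 1 f) (z : ℂ) :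
    dz (fun z => conj (f z)) z = conj (db f z) := by
  have h2 : conj (2 : ℂ) = 2 := map_ofNat (starRingEnd ℂ) 2
  unfold dz db
  rw [fderiv_cj hf, fderiv_cj hf, map_div₀, h2]
  simp only [map_add, map_mul, conj_I]
  congr 1
  ring

theorem db_cj {f : ℂ → ℂ} (hf : ContDiff ℝ 1 f) (z : ℂ) :
    db (fun z => conj (f z)) z = conj (dz f z) := by
  have h2 : conj (2 : ℂ) = 2 := map_ofNat (starRingEnd ℂ) 2
  unfold dz db
  rw [fderiv_cj hf, fderiv_cj hf, map_div₀, h2]
  simp only [map_sub, map_mul, conj_I]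
  congr 1
  ring

theorem cd_scale {f : ℂ → ℂ} (hf : ContDiff ℝ 1 f) (c : ℂ) : ContDiff ℝ 1 (fun z => c * f z) :=
  contDiff_const.mul hf

theorem cs_scale {f : ℂ → ℂ} (hs : HasCompactSupport f) (c : ℂ) :
    HasCompactSupport (fun z => c * f z) := HasCompactSupport.mul_left hs

theorem cd_cj {f : ℂ → ℂ} (hf : ContDiff ℝ 1 f) : ContDiff ℝ 1 (fun z => conj (f z)) :=
  Complex.conjCLE.contDiff.comp hf

theorem cs_cj {f : ℂ → ℂ} (hs : HasCompactSupport f) :
    HasCompactSupport (fun z => conj (f z)) := hs.comp_left (g := fun w : ℂ => conj w) (map_zero _)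

theorem sv_scale {f : ℂ → ℂ} (hf : ContDiff ℝ 1 f) {t : ℝ} (ht : 0 < t)
    (h : Sv (fun z => ((t⁻¹ : ℝ) : ℂ) * f z)) : 0 ≤ ∫ z, LSr (‖dz f z‖ / t) (‖db f z‖ / t) := by
  unfold Sv at h
  convert h using 3 with z
  rw [LS_eq, dz_scale hf, db_scale hf, norm_mul, norm_mul, norm_real,
    Real.norm_of_nonneg (inv_nonneg.2 ht.le), inv_mul_eq_div, inv_mul_eq_div]

theorem sv_cj {f : ℂ → ℂ} (hf : ContDiff ℝ 1 f) {t : ℝ} (ht : 0 < t)
    (h : Sv (fun z => ((t⁻¹ : ℝ) : ℂ) * conj (f z))) :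
    0 ≤ ∫ z, LSr (‖db f z‖ / t) (‖dz f z‖ / t) := by
  have h1 := sv_scale (cd_cj hf) ht h
  convert h1 using 3 with z
  rw [dz_cj hf, db_cj hf, RCLike.norm_conj, RCLike.norm_conj]

/-! ### Invariance of the classes -/

theorem Col.scale {f : ℂ → ℂ} {s : ℝ} (h : Col f s) (c : ℂ) : Col (fun z => c * f z) s := by
  intro θ₁ θ₂ θ₃
  have h1 := h θ₁ θ₂ θ₃
  have e : (c * f (cz s θ₁) - c * f (cz s θ₃)) * conj (c * f (cz s θ₂) - c * f (cz s θ₃)) =
      ((normSq c : ℝ) : ℂ) *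
        ((f (cz s θ₁) - f (cz s θ₃)) * conj (f (cz s θ₂) - f (cz s θ₃))) := by
    rw [← mul_conj, ← mul_sub, ← mul_sub, map_mul]
    ring
  simp only
  rw [e, im_ofReal_mul, h1, mul_zero]

theorem Col.cj {f : ℂ → ℂ} {s : ℝ} (h : Col f s) : Col (fun z => conj (f z)) s := by
  intro θ₁ θ₂ θ₃
  have h1 := h θ₁ θ₂ θ₃
  have e : (conj (f (cz s θ₁)) - conj (f (cz s θ₃))) *
      conj (conj (f (cz s θ₂)) - conj (f (cz s θ₃))) =
      conj ((f (cz s θ₁) - f (cz s θ₃)) * conj (f (cz s θ₂) - f (cz s θ₃))) := by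
    simp only [map_mul, map_sub, conj_conj]
  simp only
  rw [e, conj_im, h1, neg_zero]

theorem Round.scale {f : ℂ → ℂ} {c : ℂ} {s : ℝ} (h : Round f c s) (a : ℂ) :
    Round (fun z => a * f z) (a * c) s := by
  intro θ
  simp only
  rw [← mul_sub, ← mul_sub, norm_mul, norm_mul, h θ]

theorem Round.cj {f : ℂ → ℂ} {c : ℂ} {s : ℝ} (h : Round f c s) :
    Round (fun z => conj (f z)) (conj c) s := by
  intro θ
  simp only
  rw [← map_sub, ← map_sub, RCLike.norm_conj, RCLike.norm_conj, h θ]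

theorem RayHyp.scale {f : ℂ → ℂ} {K : Set ℝ} (h : RayHyp f K) (t : ℝ) :
    RayHyp (fun z => (t : ℂ) * f z) K := by
  obtain ⟨φ, κ, h1, h2⟩ := h
  refine ⟨φ, κ, h1, fun s θ hs => ?_⟩
  simp only
  rw [mul_assoc, im_ofReal_mul, h2 s θ hs, mul_zero]

theorem RayHyp.cj {f : ℂ → ℂ} {K : Set ℝ} (h : RayHyp f K) :
    RayHyp (fun z => conj (f z)) (-K) := by
  obtain ⟨φ, κ, h1, h2⟩ := h
  refine ⟨fun θ => -φ θ, fun θ => -κ θ, fun θ => ⟨(h1 θ).1.neg, ?_⟩, fun s θ hs => ?_⟩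
  · simpa using (h1 θ).2
  · simp only
    have e : conj (f (cz s θ)) * conj (exp (((-φ θ : ℝ) : ℂ) * I)) =
        conj (f (cz s θ) * conj (exp (φ θ * I))) := by
      rw [map_mul, conj_conj, ← exp_conj, map_mul, conj_I, conj_ofReal]
      congr 2
      push_cast
      ring
    rw [e, conj_im, h2 s θ hs, neg_zero]

/-! ### The classes -/

theorem burk_radial {f : ℂ → ℂ} (hf : ContDiff ℝ 1 f) (hs : HasCompactSupport f) {c : ℂ}
    (hyp : ∀ s, 0 < s → Col f s ∨ Round f c s) {p : ℝ} (hp : 1 < p) :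
    0 ≤ ∫ z, BF p (dz f z) (db f z) := by
  rcases lt_trichotomy p 2 with h | h | h
  · refine burk_lt hf hs hp h fun t ht => sv_scale hf ht ?_
    exact sv_radial (cd_scale hf _) (cs_scale hs _) (c := ((t⁻¹ : ℝ) : ℂ) * c) fun s h0 =>
      (hyp s h0).imp (fun h => h.scale _) fun h => h.scale _
  · subst h
    exact (burk_two hf hs).ge
  · refine burk_gt hf hs h fun t ht => sv_cj hf ht ?_
    exact sv_radial (cd_scale (cd_cj hf) _) (cs_scale (cs_cj hs) _)
      (c := ((t⁻¹ : ℝ) : ℂ) * conj c) fun s h0 =>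
      (hyp s h0).imp (fun h => h.cj.scale _) fun h => h.cj.scale _

theorem burk_rays_le {f : ℂ → ℂ} (hf : ContDiff ℝ 1 f) (hs : HasCompactSupport f)
    (hyp : RayHyp f (Set.Iic 0 ∪ Set.Ici 1)) {p : ℝ} (hp : 1 < p) (hp2 : p ≤ 2) :
    0 ≤ ∫ z, BF p (dz f z) (db f z) := by
  rcases hp2.lt_or_eq with h | h
  · refine burk_lt hf hs hp h fun t ht => sv_scale hf ht ?_
    exact sv_rays (cd_scale hf _) (cs_scale hs _) (hyp.scale _)
  · subst h
    exact (burk_two hf hs).ge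

theorem burk_rays_ge {f : ℂ → ℂ} (hf : ContDiff ℝ 1 f) (hs : HasCompactSupport f)
    (hyp : RayHyp f (Set.Iic (-1) ∪ Set.Ici 0)) {p : ℝ} (hp2 : 2 ≤ p) :
    0 ≤ ∫ z, BF p (dz f z) (db f z) := by
  rcases hp2.lt_or_eq with h | h
  · refine burk_gt hf hs h fun t ht => sv_cj hf ht ?_
    refine sv_rays (cd_scale (cd_cj hf) _) (cs_scale (cs_cj hs) _) (RayHyp.scale ?_ _)
    have := hyp.cj
    have e : -(Set.Iic (-1 : ℝ) ∪ Set.Ici 0) = Set.Iic 0 ∪ Set.Ici 1 := by
      ext x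
      simp only [Set.mem_neg, Set.mem_union, Set.mem_Iic, Set.mem_Ici]
      constructor
      · rintro (h | h)
        · right; linarith
        · left; linarith
      · rintro (h | h)
        · right; linarith
        · left; linarith
    rwa [e] at this
  · subst h
    exact (burk_two hf hs).ge

end Pool.Agent.Helper7.BU
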