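import Pool.Agent.Helper7.BU.Plane

/-!
# The integral of the Jacobian of a compactly supported map vanishes
-/

set_option autoImplicit false
set_option maxHeartbeats 400000

noncomputable section

open scoped ComplexConjugate Topology
open Complex Filter MeasureTheory

namespace Pool.Agent.Helper7.BU

theorem cross_symm {u v : ℂ → ℝ} (hu : ContDiff ℝ 1 u) (hv : ContDiff ℝ 1 v)
    (su : HasCompactSupport u) (sv : HasCompactSupport v) (a b : ℂ) :
    ∫ z, fderiv ℝ v z b * fderiv ℝ u z a = ∫ z, fderiv ℝ u z b * fderiv ℝ v z a := by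
  obtain ⟨C, hC⟩ := ContDiff.lipschitzWith_of_hasCompactSupport sv hv one_ne_zero
  obtain ⟨D, hD⟩ := ContDiff.lipschitzWith_of_hasCompactSupport su hu one_ne_zero
  have cua : Continuous fun z => fderiv ℝ u z a := (hu.continuous_fderiv one_ne_zero).clm_apply
    continuous_const
  have cva : Continuous fun z => fderiv ℝ v z a := (hv.continuous_fderiv one_ne_zero).clm_apply
    continuous_const
  have sua : HasCompactSupport fun z => fderiv ℝ u z a := su.fderiv_apply ℝ a
  have sva : HasCompactSupport fun z => fderiv ℝ v z a := sv.fderiv_apply ℝ a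
  have A := hC.integral_inv_smul_sub_mul_tendsto_integral_lineDeriv_mul (μ := volume)
    (cua.integrable_of_hasCompactSupport sua) b
  have B := hD.integral_inv_smul_sub_mul_tendsto_integral_lineDeriv_mul (μ := volume)
    (cva.integrable_of_hasCompactSupport sva) (-b)
  have lv : ∀ z, lineDeriv ℝ v z b = fderiv ℝ v z b := fun z =>
    (hv.differentiable one_ne_zero z).lineDeriv_eq_fderiv
  have lu : ∀ z, lineDeriv ℝ u z (-b) = -fderiv ℝ u z b := fun z => by
    rw [(hu.differentiable one_ne_zero z).lineDeriv_eq_fderiv, map_neg]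
  simp only [lv] at A
  simp only [lu] at B
  have key : ∀ t : ℝ, ∫ z, (t⁻¹ • (v (z + t • b) - v z)) * fderiv ℝ u z a =
      -∫ z, (t⁻¹ • (u (z + t • (-b)) - u z)) * fderiv ℝ v z a := by
    intro t
    have hvt : ContDiff ℝ 1 fun z => v (z + t • b) := hv.comp (contDiff_id.add contDiff_const)
    have hw : ContDiff ℝ 1 fun z => v (z + t • b) - v z := hvt.sub hv
    have dvt : ∀ z, fderiv ℝ (fun z => v (z + t • b) - v z) z a =
        fderiv ℝ v (z + t • b) a - fderiv ℝ v z a := by
      intro z
      rw [fderiv_fun_sub (hvt.differentiable one_ne_zero z) (hv.differentiable one_ne_zero z),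
        _root_.sub_apply, fderiv_comp_add_right]
    have cdw : Continuous fun z => fderiv ℝ (fun z => v (z + t • b) - v z) z a :=
      (hw.continuous_fderiv one_ne_zero).clm_apply continuous_const
    have i1 := integral_mul_fderiv_eq_neg_fderiv_mul_of_integrable (μ := (volume : Measure ℂ))
      (f := fun z => v (z + t • b) - v z) (g := u) (v := a)
      ((cdw.mul hu.continuous).integrable_of_hasCompactSupport su.mul_left)
      ((hw.continuous.mul cua).integrable_of_hasCompactSupport sua.mul_left)
      ((hw.continuous.mul hu.continuous).integrable_of_hasCompactSupport su.mul_left)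
      (fun z _ => hw.differentiable one_ne_zero z) (fun z _ => hu.differentiable one_ne_zero z)
    simp only [dvt] at i1
    have cvt : Continuous fun z => fderiv ℝ v (z + t • b) a := cva.comp (by fun_prop)
    have i2 : ∫ z, (fderiv ℝ v (z + t • b) a - fderiv ℝ v z a) * u z =
        ∫ z, (u (z + t • (-b)) - u z) * fderiv ℝ v z a := by
      have j1 : ∫ z, fderiv ℝ v (z + t • b) a * u z = ∫ z, fderiv ℝ v z a * u (z + t • (-b)) := by
        rw [← integral_add_right_eq_self (fun z => fderiv ℝ v (z + t • b) a * u z) (t • (-b))]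
        refine integral_congr_ae (Eventually.of_forall fun z => ?_)
        simp only
        rw [add_assoc z, smul_neg, neg_add_cancel, add_zero]
      have cub : Continuous fun z => u (z + t • (-b)) := hu.continuous.comp (by fun_prop)
      have k1 : Integrable (fun z => fderiv ℝ v (z + t • b) a * u z) :=
        (cvt.mul hu.continuous).integrable_of_hasCompactSupport su.mul_left
      have k2 : Integrable (fun z => fderiv ℝ v z a * u z) :=
        (cva.mul hu.continuous).integrable_of_hasCompactSupport su.mul_left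
      have k3 : Integrable (fun z => fderiv ℝ v z a * u (z + t • (-b))) :=
        (cva.mul cub).integrable_of_hasCompactSupport sva.mul_right
      calc ∫ z, (fderiv ℝ v (z + t • b) a - fderiv ℝ v z a) * u z
          = ∫ z, (fderiv ℝ v (z + t • b) a * u z - fderiv ℝ v z a * u z) := by
            simp_rw [sub_mul]
        _ = (∫ z, fderiv ℝ v (z + t • b) a * u z) - ∫ z, fderiv ℝ v z a * u z :=
            integral_sub k1 k2
        _ = (∫ z, fderiv ℝ v z a * u (z + t • (-b))) - ∫ z, fderiv ℝ v z a * u z := by rw [j1]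
        _ = ∫ z, (fderiv ℝ v z a * u (z + t • (-b)) - fderiv ℝ v z a * u z) :=
            (integral_sub k3 k2).symm
        _ = _ := by
            refine integral_congr_ae (Eventually.of_forall fun z => ?_)
            simp only
            ring
    rw [i2] at i1
    simp only [smul_eq_mul, mul_assoc, integral_const_mul]
    rw [i1, mul_neg]
  have A' : Tendsto (fun t : ℝ => -∫ z, (t⁻¹ • (u (z + t • (-b)) - u z)) * fderiv ℝ v z a)
      (𝓝[>] 0) (𝓝 (∫ z, fderiv ℝ v z b * fderiv ℝ u z a)) := by
    refine A.congr fun t => ?_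
    exact key t
  have h := tendsto_nhds_unique A' B.neg
  rw [h]
  simp only [neg_mul, integral_neg, neg_neg]

/-- the Jacobian in terms of the complex derivatives -/
theorem det_eq (f : ℂ → ℂ) (z : ℂ) :
    ‖dz f z‖ ^ 2 - ‖db f z‖ ^ 2 =
      (fderiv ℝ f z 1).re * (fderiv ℝ f z I).im - (fderiv ℝ f z 1).im * (fderiv ℝ f z I).re := by
  have h1 : ‖fderiv ℝ f z 1 - I * fderiv ℝ f z I‖ ^ 2 =
      ((fderiv ℝ f z 1).re + (fderiv ℝ f z I).im) ^ 2 +
        ((fderiv ℝ f z 1).im - (fderiv ℝ f z I).re) ^ 2 := by
    rw [← normSq_eq_norm_sq, normSq_apply]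
    simp only [sub_re, sub_im, mul_re, mul_im, I_re, I_im]
    ring
  have h2 : ‖fderiv ℝ f z 1 + I * fderiv ℝ f z I‖ ^ 2 =
      ((fderiv ℝ f z 1).re - (fderiv ℝ f z I).im) ^ 2 +
        ((fderiv ℝ f z 1).im + (fderiv ℝ f z I).re) ^ 2 := by
    rw [← normSq_eq_norm_sq, normSq_apply]
    simp only [add_re, add_im, mul_re, mul_im, I_re, I_im]
    ring
  unfold dz db
  rw [norm_div, norm_div, div_pow, div_pow, h1, h2]
  norm_num
  ring

theorem integral_det {f : ℂ → ℂ} (hf : ContDiff ℝ 1 f) (hs : HasCompactSupport f) :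
    ∫ z, (‖dz f z‖ ^ 2 - ‖db f z‖ ^ 2) = 0 := by
  have hu : ContDiff ℝ 1 fun z => (f z).re := reCLM.contDiff.comp hf
  have hv : ContDiff ℝ 1 fun z => (f z).im := imCLM.contDiff.comp hf
  have su : HasCompactSupport fun z => (f z).re := hs.comp_left (g := fun w : ℂ => w.re) rfl
  have sv : HasCompactSupport fun z => (f z).im := hs.comp_left (g := fun w : ℂ => w.im) rfl
  have du : ∀ z w, fderiv ℝ (fun z => (f z).re) z w = (fderiv ℝ f z w).re := by
    intro z w
    have h1 : HasFDerivAt (fun z => (f z).re) (reCLM.comp (fderiv ℝ f z)) z :=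
      reCLM.hasFDerivAt.comp z (hf.differentiable one_ne_zero z).hasFDerivAt
    rw [h1.fderiv]; rfl
  have dv : ∀ z w, fderiv ℝ (fun z => (f z).im) z w = (fderiv ℝ f z w).im := by
    intro z w
    have h1 : HasFDerivAt (fun z => (f z).im) (imCLM.comp (fderiv ℝ f z)) z :=
      imCLM.hasFDerivAt.comp z (hf.differentiable one_ne_zero z).hasFDerivAt
    rw [h1.fderiv]; rfl
  have h := cross_symm hu hv su sv 1 I
  simp only [du, dv] at h
  simp_rw [det_eq]
  have cf : ∀ w : ℂ, Continuous fun z => fderiv ℝ f z w := fun w =>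
    (hf.continuous_fderiv one_ne_zero).clm_apply continuous_const
  have sf : ∀ w : ℂ, HasCompactSupport fun z => fderiv ℝ f z w := fun w => hs.fderiv_apply ℝ w
  have i1 : Integrable fun z => (fderiv ℝ f z 1).re * (fderiv ℝ f z I).im := by
    refine ((continuous_re.comp (cf 1)).mul (continuous_im.comp (cf I))).integrable_of_hasCompactSupport ?_
    exact ((sf 1).comp_left (g := fun w : ℂ => w.re) rfl).mul_right
  have i2 : Integrable fun z => (fderiv ℝ f z 1).im * (fderiv ℝ f z I).re := by
    refine ((continuous_im.comp (cf 1)).mul (continuous_re.comp (cf I))).integrable_of_hasCompactSupport ?_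
    exact ((sf 1).comp_left (g := fun w : ℂ => w.im) rfl).mul_right
  rw [integral_sub i1 i2, sub_eq_zero]
  calc ∫ z, (fderiv ℝ f z 1).re * (fderiv ℝ f z I).im
      = ∫ z, (fderiv ℝ f z I).im * (fderiv ℝ f z 1).re := by simp_rw [mul_comm]
    _ = ∫ z, (fderiv ℝ f z I).re * (fderiv ℝ f z 1).im := h
    _ = _ := by simp_rw [mul_comm]

end Pool.Agent.Helper7.BU
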