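import Pool.Agent.Helper7.BU.Burk

/-!
# The hypotheses in geometric form
-/

set_option autoImplicit false

noncomputable section

open scoped ComplexConjugate
open Complex

namespace Pool.Agent.Helper7.BU

theorem col_of_line {f : ℂ → ℂ} {r : ℝ} (hr : 0 < r)
    (h : ∃ (v : ℂ) (β : ℝ), v ≠ 0 ∧ ∀ z : ℂ, ‖z‖ = r → (f z * conj v).im = β) : Col f r := by
  obtain ⟨v, β, hv, h⟩ := h
  have h1 : ∀ θ : ℝ, (f (cz r θ) * conj v).im = β := fun θ =>
    h _ (by rw [norm_cz, abs_of_pos hr])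
  intro θ₁ θ₂ θ₃
  have h2 : ((f (cz r θ₁) - f (cz r θ₃)) * conj v).im = 0 := by
    rw [sub_mul, sub_im, h1, h1, sub_self]
  have h3 : ((f (cz r θ₂) - f (cz r θ₃)) * conj v).im = 0 := by
    rw [sub_mul, sub_im, h1, h1, sub_self]
  generalize f (cz r θ₁) - f (cz r θ₃) = a at h2 ⊢
  generalize f (cz r θ₂) - f (cz r θ₃) = b at h3 ⊢
  have h4 : normSq v * (a * conj b).im = 0 := by
    rw [← im_ofReal_mul, ← mul_conj,
      show v * conj v * (a * conj b) = (a * conj v) * (conj b * v) by ring, mul_im]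
    have h5 : (conj b * v).im = 0 := by
      have : conj (b * conj v) = conj b * v := by rw [map_mul, conj_conj]
      rw [← this, conj_im, h3, neg_zero]
    rw [h2, h5]
    ring
  exact (mul_eq_zero.1 h4).resolve_left (normSq_eq_zero.not.2 hv)

theorem round_of_circle {f : ℂ → ℂ} {c : ℂ} {r : ℝ} (hr : 0 < r)
    (h : ∃ R : ℝ, ∀ z : ℂ, ‖z‖ = r → ‖f z - c‖ = R) : Round f c r := by
  obtain ⟨R, h⟩ := h
  intro θ
  rw [h _ (by rw [norm_cz, abs_of_pos hr]), h _ (by rw [norm_cz, abs_of_pos hr])]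

theorem ray_of {f : ℂ → ℂ} {φ κ : ℝ → ℝ} {K : Set ℝ} (hφ : ∀ θ, HasDerivAt φ (κ θ) θ)
    (hK : ∀ θ, κ θ ∈ K)
    (h : ∀ r θ : ℝ, 0 < r → ∃ G : ℝ, f (r * exp (θ * I)) = G * exp (φ θ * I)) :
    RayHyp f K := by
  refine ⟨φ, κ, fun θ => ⟨hφ θ, hK θ⟩, fun s θ hs => ?_⟩
  obtain ⟨G, hG⟩ := h s θ hs
  unfold cz
  rw [hG, mul_assoc, mul_conj, ← ofReal_mul, ofReal_im]

end Pool.Agent.Helper7.BU
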