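import Pool.Agent.Helper7.BU.Det

/-!
# The layer cake formula for the Burkholder function
-/

set_option autoImplicit false
set_option maxHeartbeats 400000

noncomputable section

open scoped ComplexConjugate Topology Interval
open Complex Filter MeasureTheory intervalIntegral

namespace Pool.Agent.Helper7.BU

/-- the Burkholder–Šverák function in terms of the absolute values -/
def LSr (x y : ℝ) : ℝ := if x + y ≤ 1 then x ^ 2 - y ^ 2 else 2 * x - 1

theorem LS_eq (z w : ℂ) : LS z w = LSr ‖z‖ ‖w‖ := rfl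

theorem LSr_small {x y t : ℝ} (ht : 0 < t) (h : t ≤ x + y) :
    LSr (x / t) (y / t) = 2 * x / t - 1 := by
  unfold LSr
  split_ifs with h1
  · rw [← add_div, div_le_one ht] at h1
    have h2 : t = x + y := le_antisymm h h1
    have h3 : x + y ≠ 0 := by rw [← h2]; exact ht.ne'
    rw [h2]
    field_simp
    ring
  · ring

theorem LSr_large {x y t : ℝ} (ht : 0 < t) (h : x + y ≤ t) :
    LSr (x / t) (y / t) = (x ^ 2 - y ^ 2) / t ^ 2 := by
  unfold LSr
  rw [if_pos (by rw [← add_div, div_le_one ht]; exact h)]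
  rw [div_pow, div_pow, sub_div]

theorem layer {p x y S : ℝ} (hp : 1 < p) (hp2 : p ≠ 2) (hx : 0 ≤ x) (hy : 0 ≤ y)
    (hS : x + y ≤ S) :
    ∫ t in (0 : ℝ)..S, t ^ (p - 1) * LSr (x / t) (y / t) =
      2 / (p * (2 - p)) * ((x / (p - 1) - y) * (x + y) ^ (p - 1)) +
        (x ^ 2 - y ^ 2) * (S ^ (p - 2) / (p - 2)) := by
  have q1 : p ≠ 0 := by linarith
  have q2 : p - 1 ≠ 0 := by intro h; linarith
  have q3 : p - 2 ≠ 0 := by intro h; exact hp2 (by linarith)
  have q4 : 2 - p ≠ 0 := by intro h; exact hp2 (by linarith)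
  rcases (add_nonneg hx hy).eq_or_lt with h0 | h0
  · have hx0 : x = 0 := by linarith
    have hy0 : y = 0 := by linarith
    subst hx0 hy0
    simp [LSr]
  · set s := x + y with hs
    have c1 : ∀ t ∈ Ι (0 : ℝ) s, t ^ (p - 1) * LSr (x / t) (y / t) =
        2 * x * t ^ (p - 2) - t ^ (p - 1) := by
      intro t ht
      rw [Set.uIoc_of_le h0.le] at ht
      rw [LSr_small ht.1 ht.2]
      have h3 : t ^ (p - 1) = t ^ (p - 2) * t := by
        rw [← Real.rpow_add_one ht.1.ne']; congr 1; ring
      rw [h3]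
      have := ht.1.ne'
      field_simp
    have c2 : ∀ t ∈ Ι s S, t ^ (p - 1) * LSr (x / t) (y / t) =
        (x ^ 2 - y ^ 2) * t ^ (p - 3) := by
      intro t ht
      rw [Set.uIoc_of_le hS] at ht
      have ht0 : 0 < t := h0.trans ht.1
      rw [LSr_large ht0 ht.1.le]
      have h3 : t ^ (p - 1) = t ^ (p - 3) * t ^ 2 := by
        rw [← Real.rpow_natCast, ← Real.rpow_add ht0]; congr 1; push_cast; ring
      rw [h3]
      have := ht0.ne'
      field_simp
    have e0 : (0 : ℝ) ∉ Set.uIcc s S := by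
      rw [Set.uIcc_of_le hS]; intro h; linarith [h.1]
    have i1 : IntervalIntegrable (fun t : ℝ => 2 * x * t ^ (p - 2) - t ^ (p - 1)) volume 0 s :=
      ((intervalIntegrable_rpow' (by linarith)).const_mul _).sub
        (intervalIntegrable_rpow' (by linarith))
    have i2 : IntervalIntegrable (fun t : ℝ => (x ^ 2 - y ^ 2) * t ^ (p - 3)) volume s S :=
      (intervalIntegrable_rpow (Or.inr e0)).const_mul _
    have j1 : IntervalIntegrable (fun t : ℝ => t ^ (p - 1) * LSr (x / t) (y / t)) volume 0 s :=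
      i1.congr (fun t ht => (c1 t ht).symm)
    have j2 : IntervalIntegrable (fun t : ℝ => t ^ (p - 1) * LSr (x / t) (y / t)) volume s S :=
      i2.congr (fun t ht => (c2 t ht).symm)
    rw [← integral_add_adjacent_intervals j1 j2,
      integral_congr_ae (Eventually.of_forall c1), integral_congr_ae (Eventually.of_forall c2),
      intervalIntegral.integral_sub
        ((intervalIntegrable_rpow' (by linarith)).const_mul _)
        (intervalIntegrable_rpow' (by linarith)),
      intervalIntegral.integral_const_mul, intervalIntegral.integral_const_mul,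
      integral_rpow (Or.inl (by linarith)), integral_rpow (Or.inl (by linarith)),
      integral_rpow (Or.inr ⟨by intro h; exact q3 (by linarith), e0⟩)]
    rw [show p - 2 + 1 = p - 1 by ring, show p - 1 + 1 = p by ring, show p - 3 + 1 = p - 2 by ring,
      Real.zero_rpow q2, Real.zero_rpow q1]
    have h4 : s ^ p = s ^ (p - 1) * s := by
      rw [← Real.rpow_add_one h0.ne']; congr 1; ring
    have h5 : (x ^ 2 - y ^ 2) * s ^ (p - 2) = (x - y) * s ^ (p - 1) := by
      have h6 : s ^ (p - 1) = s ^ (p - 2) * s := by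
        rw [← Real.rpow_add_one h0.ne']; congr 1; ring
      rw [h6, hs]; ring
    have h7 : (x ^ 2 - y ^ 2) * ((S ^ (p - 2) - s ^ (p - 2)) / (p - 2)) =
        (x ^ 2 - y ^ 2) * (S ^ (p - 2) / (p - 2)) - (x - y) * s ^ (p - 1) / (p - 2) := by
      rw [← h5]; ring
    rw [h7, h4, hs]
    generalize (x + y) ^ (p - 1) = W
    generalize S ^ (p - 2) = V
    rw [← sub_eq_zero]
    field_simp
    ring

theorem LSr_bound {p x y t S : ℝ} (hx : 0 ≤ x) (hy : 0 ≤ y) (hS : x + y ≤ S)
    (ht : 0 < t) (htS : t ≤ S) :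
    |t ^ (p - 1) * LSr (x / t) (y / t)| ≤ 2 * S * t ^ (p - 2) := by
  have h3 : t ^ (p - 1) = t ^ (p - 2) * t := by
    rw [← Real.rpow_add_one ht.ne']; congr 1; ring
  have h4 : 0 < t ^ (p - 2) := Real.rpow_pos_of_pos ht _
  rw [abs_mul, h3, abs_of_pos (mul_pos h4 ht)]
  have h5 : t * |LSr (x / t) (y / t)| ≤ 2 * S := by
    rcases le_total t (x + y) with h | h
    · rw [LSr_small ht h, ← abs_of_pos ht, ← abs_mul, abs_of_pos ht]
      have e : t * (2 * x / t - 1) = 2 * x - t := by field_simp
      rw [e, abs_le]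
      constructor <;> linarith
    · rw [LSr_large ht h, ← abs_of_pos ht, ← abs_mul, abs_of_pos ht]
      have e : t * ((x ^ 2 - y ^ 2) / t ^ 2) = (x - y) * ((x + y) / t) := by field_simp; ring
      rw [e, abs_mul]
      have h6 : |(x + y) / t| ≤ 1 := by
        rw [abs_of_nonneg (by positivity), div_le_one ht]; exact h
      have h7 : |x - y| ≤ S := by rw [abs_le]; constructor <;> linarith
      have h8 : 0 ≤ |x - y| := abs_nonneg _
      nlinarith
  nlinarith

/-- the abstract layer cake: integration over the plane -/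
theorem layer_nonneg {p S M : ℝ} {X Y : ℂ → ℝ} (hp : 1 < p) (hp2 : p ≠ 2)
    (cX : Continuous X) (cY : Continuous Y) (hX : ∀ z, 0 ≤ X z) (hY : ∀ z, 0 ≤ Y z)
    (hS0 : 0 < S) (hS : ∀ z, X z + Y z ≤ S) (hz : ∀ z, M ≤ ‖z‖ → X z = 0 ∧ Y z = 0)
    (hdet : ∫ z, (X z ^ 2 - Y z ^ 2) = 0)
    (h : ∀ t, 0 < t → 0 ≤ ∫ z, LSr (X z / t) (Y z / t)) :
    0 ≤ 2 / (p * (2 - p)) * ∫ z, (X z / (p - 1) - Y z) * (X z + Y z) ^ (p - 1) := by
  have mLSr : Measurable fun q : ℝ × ℝ => LSr q.1 q.2 := by
    unfold LSr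
    exact Measurable.ite (measurableSet_le (by fun_prop) (by fun_prop)) (by fun_prop) (by fun_prop)
  have mF : Measurable fun q : ℝ × ℂ => q.1 ^ (p - 1) * LSr (X q.2 / q.1) (Y q.2 / q.1) := by
    refine Measurable.mul (by fun_prop) ?_
    refine mLSr.comp (Measurable.prodMk ?_ ?_)
    · exact (cX.measurable.comp measurable_snd).div measurable_fst
    · exact (cY.measurable.comp measurable_snd).div measurable_fst
  have hint : Integrable (fun q : ℝ × ℂ => q.1 ^ (p - 1) * LSr (X q.2 / q.1) (Y q.2 / q.1))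
      ((volume.restrict (Set.Ioc 0 S)).prod volume) := by
    have g1 : Integrable (fun t : ℝ => 2 * S * t ^ (p - 2)) (volume.restrict (Set.Ioc 0 S)) := by
      have := (intervalIntegrable_rpow' (a := 0) (b := S) (r := p - 2) (by linarith)).const_mul (2 * S)
      rwa [intervalIntegrable_iff_integrableOn_Ioc_of_le hS0.le] at this
    have g2 : Integrable ((Metric.closedBall (0 : ℂ) M).indicator (fun _ => (1 : ℝ))) := by
      rw [integrable_indicator_iff measurableSet_closedBall]
      exact integrableOn_const (measure_closedBall_lt_top.ne)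
    refine (g1.mul_prod g2).mono' mF.aestronglyMeasurable ?_
    have h1 : ∀ᵐ q : ℝ × ℂ ∂((volume.restrict (Set.Ioc 0 S)).prod volume), q.1 ∈ Set.Ioc 0 S := by
      have h2 : ∀ᵐ t : ℝ ∂(volume.restrict (Set.Ioc 0 S)), t ∈ Set.Ioc 0 S :=
        ae_restrict_mem measurableSet_Ioc
      exact Measure.quasiMeasurePreserving_fst.ae h2
    filter_upwards [h1] with q hq
    rw [Real.norm_eq_abs]
    by_cases hM : q.2 ∈ Metric.closedBall (0 : ℂ) M
    · rw [Set.indicator_of_mem hM, mul_one]
      exact LSr_bound (hX _) (hY _) (hS _) hq.1 hq.2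
    · rw [Set.indicator_of_notMem hM, mul_zero]
      rw [Metric.mem_closedBall, dist_zero_right, not_le] at hM
      obtain ⟨h3, h4⟩ := hz q.2 hM.le
      rw [h3, h4]
      simp [LSr]
  have swap := integral_integral_swap (f := fun (t : ℝ) (z : ℂ) =>
    t ^ (p - 1) * LSr (X z / t) (Y z / t)) hint
  have pos : 0 ≤ ∫ t in Set.Ioc 0 S, ∫ z, t ^ (p - 1) * LSr (X z / t) (Y z / t) := by
    refine setIntegral_nonneg measurableSet_Ioc fun t ht => ?_
    rw [MeasureTheory.integral_const_mul]
    exact mul_nonneg (Real.rpow_nonneg ht.1.le _) (h t ht.1)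
  rw [swap] at pos
  have inner : ∀ z, ∫ t in Set.Ioc 0 S, t ^ (p - 1) * LSr (X z / t) (Y z / t) =
      2 / (p * (2 - p)) * ((X z / (p - 1) - Y z) * (X z + Y z) ^ (p - 1)) +
        (X z ^ 2 - Y z ^ 2) * (S ^ (p - 2) / (p - 2)) := by
    intro z
    rw [← integral_of_le hS0.le]
    exact layer hp hp2 (hX z) (hY z) (hS z)
  simp_rw [inner] at pos
  have k1 : Integrable fun z => 2 / (p * (2 - p)) * ((X z / (p - 1) - Y z) * (X z + Y z) ^ (p - 1)) := by
    refine Continuous.integrable_of_hasCompactSupport ?_ ?_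
    · refine continuous_const.mul (Continuous.mul (by fun_prop) ?_)
      exact (cX.add cY).rpow_const (fun z => Or.inr (by linarith))
    · refine HasCompactSupport.intro (isCompact_closedBall (0 : ℂ) M) fun z hz' => ?_
      rw [Metric.mem_closedBall, dist_zero_right, not_le] at hz'
      obtain ⟨h3, h4⟩ := hz z hz'.le
      rw [h3, h4]
      simp
  have k2 : Integrable fun z => (X z ^ 2 - Y z ^ 2) * (S ^ (p - 2) / (p - 2)) := by
    refine Continuous.integrable_of_hasCompactSupport (by fun_prop) ?_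
    refine HasCompactSupport.intro (isCompact_closedBall (0 : ℂ) M) fun z hz' => ?_
    rw [Metric.mem_closedBall, dist_zero_right, not_le] at hz'
    obtain ⟨h3, h4⟩ := hz z hz'.le
    rw [h3, h4]
    simp
  rw [MeasureTheory.integral_add k1 k2, MeasureTheory.integral_mul_const, hdet, zero_mul, add_zero,
    MeasureTheory.integral_const_mul] at pos
  exact pos

end Pool.Agent.Helper7.BU
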