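import Pool.Agent.Helper7.BU.Polar

/-!
# Circles mapped into lines
-/

set_option autoImplicit false

noncomputable section

open scoped ComplexConjugate Topology
open Complex Filter MeasureTheory intervalIntegral

namespace Pool.Agent.Helper7.BU

section

variable {f : ℂ → ℂ} (hf : ContDiff ℝ 1 f)

include hf

omit hf in
theorem pos_of_r {r x : ℝ} (hr : 0 < r) (h : 0 ≤ r * x) : 0 ≤ x :=
  nonneg_of_mul_nonneg_right h hr

theorem line_aux {r : ℝ} (hr : 0 < r) {v p : ℂ} (hv : ‖v‖ = 1)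
    (him : ∀ θ, ((f (cz r θ) - p) * conj v).im = 0) {α c : ℝ}
    (hA : ∀ θ, (AA f r θ * conj v).im = α + c * ((f (cz r θ) - p) * conj v).re) :
    0 ≤ PP f r := by
  obtain ⟨G, hG⟩ : ∃ G : ℝ → ℝ, ∀ θ, G θ = ((f (cz r θ) - p) * conj v).re := ⟨_, fun _ => rfl⟩
  have hGd : ∀ θ, HasDerivAt G (r * (TT f r θ * conj v).re) θ := by
    intro θ
    have h0 : HasDerivAt (fun s => (f (cz r s) - p) * conj v) (r * TT f r θ * conj v) θ :=
      ((hasDerivAt_angle hf r θ).sub_const _).mul_const _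
    have h1 := hd_re h0
    have h2 : G = fun s => ((f (cz r s) - p) * conj v).re := funext hG
    rw [h2]
    refine h1.congr_deriv ?_
    rw [mul_assoc, re_ofReal_mul]
  have hTc := TT_cont hf r
  have hLc := LP_cont hf r
  have hGc : Continuous G := continuous_iff_continuousAt.2 fun θ => (hGd θ).continuousAt
  have hclc : Continuous (fun s => clamp (-(α + c * s))) := clamp_continuous.comp (by fun_prop)
  obtain ⟨Ψ, hΨd⟩ := exists_prim hclc
  have hic : Continuous fun θ => clamp (-(α + c * G θ)) * (r * (TT f r θ * conj v).re) := by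
    have h1 : Continuous fun θ => clamp (-(α + c * G θ)) := hclc.comp hGc
    have h2 : Continuous fun θ => (TT f r θ * conj v).re :=
      continuous_re.comp (hTc.mul continuous_const)
    exact h1.mul (continuous_const.mul h2)
  have hint : ∫ θ in (-Real.pi)..Real.pi, clamp (-(α + c * G θ)) * (r * (TT f r θ * conj v).re) =
      Ψ (G Real.pi) - Ψ (G (-Real.pi)) :=
    integral_eq_sub_of_hasDerivAt (f := fun θ => Ψ (G θ))
      (fun θ _ => (hΨd (G θ)).comp θ (hGd θ)) (hic.intervalIntegrable _ _)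
  have hper : G Real.pi = G (-Real.pi) := by rw [hG, hG, cz_pi]
  rw [hper, sub_self] at hint
  have h1 : (0 : ℝ) ≤ ∫ θ in (-Real.pi)..Real.pi, r * LP f r θ := by
    rw [← hint]
    refine integral_mono_on (by linarith [Real.pi_pos]) (hic.intervalIntegrable _ _)
      ((continuous_const.mul hLc).intervalIntegrable _ _) fun θ _ => ?_
    have h2 := line_pointwise hf hr hv him θ
    rw [hA θ, ← hG θ] at h2
    exact h2
  rw [intervalIntegral.integral_const_mul] at h1
  exact pos_of_r hr h1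

/-- circles mapped into lines -/
theorem PP_nonneg_of_line {r : ℝ} (hr : 0 < r) (hcol : ∀ᶠ s in 𝓝 r, Col f s) : 0 ≤ PP f r := by
  by_cases hp : ∀ θ₁ θ₂, f (cz r θ₁) = f (cz r θ₂)
  · exact PP_nonneg_of_point hf hr hp
  push Not at hp
  obtain ⟨θ₁, θ₂, h12⟩ := hp
  have hc0 : Col f r := hcol.self_of_nhds
  have hE0 : f (cz r θ₁) - f (cz r θ₂) ≠ 0 := sub_ne_zero.2 h12
  obtain ⟨E, hE⟩ : ∃ E : ℂ, E = f (cz r θ₁) - f (cz r θ₂) := ⟨_, rfl⟩
  rw [← hE] at hE0
  have hnE : 0 < ‖E‖ := norm_pos_iff.2 hE0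
  have hnE' : (‖E‖ : ℂ) ≠ 0 := by exact_mod_cast hnE.ne'
  obtain ⟨v, hv⟩ : ∃ v : ℂ, E = ‖E‖ * v := ⟨E / ‖E‖, by field_simp⟩
  have hv1 : ‖v‖ = 1 := by
    have h1 := congrArg (fun z => ‖z‖) hv
    simp only [norm_mul, norm_real, norm_norm] at h1
    have h2 : ‖E‖ * (‖v‖ - 1) = 0 := by linarith
    have h3 := (mul_eq_zero.1 h2).resolve_left hnE.ne'
    linarith
  have hEc : (‖E‖ : ℂ) * conj v = conj E := by
    conv_rhs => rw [hv]
    rw [map_mul, conj_ofReal]
  have hvv : conj v * v = 1 := by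
    rw [mul_comm, mul_conj, normSq_eq_norm_sq, hv1]; norm_num
  have him : ∀ θ, ((f (cz r θ) - f (cz r θ₂)) * conj v).im = 0 := by
    intro θ
    have h1 := hc0 θ θ₁ θ₂
    rw [← hE, ← hEc, mul_left_comm, im_ofReal_mul] at h1
    exact (mul_eq_zero.1 h1).resolve_left hnE.ne'
  refine line_aux hf hr hv1 him (α := (AA f r θ₂ * conj v).im)
    (c := -(v * conj (AA f r θ₁ - AA f r θ₂)).im / ‖E‖) fun θ => ?_
  have h5 := line_rad hf hcol θ θ₁ θ₂
  have hGv : f (cz r θ) - f (cz r θ₂) = (((f (cz r θ) - f (cz r θ₂)) * conj v).re : ℂ) * v := by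
    have h1 : (f (cz r θ) - f (cz r θ₂)) * conj v =
        (((f (cz r θ) - f (cz r θ₂)) * conj v).re : ℂ) := by
      apply Complex.ext
      · simp
      · rw [him θ]; simp
    rw [← h1, mul_assoc, hvv, mul_one]
  generalize ((f (cz r θ) - f (cz r θ₂)) * conj v).re = g at hGv ⊢
  rw [hGv, ← hE, ← hEc] at h5
  have e1 : (AA f r θ - AA f r θ₂) * (‖E‖ * conj v) =
      (‖E‖ : ℂ) * (AA f r θ * conj v - AA f r θ₂ * conj v) := by ring
  have e2 : (g : ℂ) * v * conj (AA f r θ₁ - AA f r θ₂) =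
      (g : ℂ) * (v * conj (AA f r θ₁ - AA f r θ₂)) := by ring
  rw [e1, e2, add_im, im_ofReal_mul, im_ofReal_mul, sub_im] at h5
  rw [div_mul_eq_mul_div, ← sub_eq_iff_eq_add', eq_div_iff hnE.ne']
  linarith

end

end Pool.Agent.Helper7.BU
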