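import Pool.Agent.Helper7.BU.Radial

/-!
# The integral over the plane in polar coordinates
-/

set_option autoImplicit false
set_option maxHeartbeats 400000

noncomputable section

open scoped ComplexConjugate Topology
open Complex Filter MeasureTheory intervalIntegral

namespace Pool.Agent.Helper7.BU

theorem polar_symm_eq (p : ℝ × ℝ) : Complex.polarCoord.symm p = cz p.1 p.2 := by
  rw [Complex.polarCoord_symm_apply]
  unfold cz
  rw [exp_mul_I, ofReal_cos, ofReal_sin]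

theorem norm_cz (r θ : ℝ) : ‖cz r θ‖ = |r| := by
  unfold cz
  rw [norm_mul, norm_exp_I, mul_one, norm_real, Real.norm_eq_abs]

theorem polar_integrable {F : ℂ → ℝ} (hF : Continuous F) {M : ℝ}
    (hz : ∀ z, M ≤ ‖z‖ → F z = 0) :
    IntegrableOn (fun p : ℝ × ℝ => p.1 * F (cz p.1 p.2))
      (Set.Ioi (0 : ℝ) ×ˢ Set.Ioo (-Real.pi) Real.pi) (volume.prod volume) := by
  have hc : Continuous (fun p : ℝ × ℝ => p.1 * F (cz p.1 p.2)) :=
    continuous_fst.mul (hF.comp cz_continuous)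
  have h1 : IntegrableOn (fun p : ℝ × ℝ => p.1 * F (cz p.1 p.2))
      (Set.Icc (0 : ℝ) M ×ˢ Set.Icc (-Real.pi) Real.pi) (volume.prod volume) :=
    hc.continuousOn.integrableOn_compact (isCompact_Icc.prod isCompact_Icc)
  refine h1.of_forall_sdiff_eq_zero (measurableSet_Ioi.prod measurableSet_Ioo) ?_
  rintro ⟨r, θ⟩ ⟨⟨h2, h3⟩, h4⟩
  simp only [Set.mem_Ioi, Set.mem_Ioo, Set.mem_prod, Set.mem_Icc, not_and] at h2 h3 h4
  have h5 : M < r := by
    by_contra hcon
    exact h4 ⟨h2.le, not_lt.1 hcon⟩ h3.1.le h3.2.le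
  simp only
  rw [hz (cz r θ) (by rw [norm_cz, abs_of_pos h2]; exact h5.le), mul_zero]

theorem plane_eq {F : ℂ → ℝ} (hF : Continuous F) {M : ℝ} (hM : 0 < M)
    (hz : ∀ z, M ≤ ‖z‖ → F z = 0) :
    ∫ z, F z = ∫ r in (0 : ℝ)..M, r * ∫ θ in (-Real.pi)..Real.pi, F (cz r θ) := by
  have hpi := Real.pi_pos
  rw [← Complex.integral_comp_polarCoord_symm F]
  have h1 : ∀ p : ℝ × ℝ, p.1 • F (Complex.polarCoord.symm p) = p.1 * F (cz p.1 p.2) := by
    intro p; rw [polar_symm_eq, smul_eq_mul]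
  simp_rw [h1]
  rw [polarCoord_target, Measure.volume_eq_prod, setIntegral_prod _ (polar_integrable hF hz)]
  have h2 : ∀ r : ℝ, ∫ θ in Set.Ioo (-Real.pi) Real.pi, r * F (cz r θ) =
      r * ∫ θ in (-Real.pi)..Real.pi, F (cz r θ) := by
    intro r
    rw [MeasureTheory.integral_const_mul, integral_of_le (by linarith),
      integral_Ioc_eq_integral_Ioo]
  simp only [h2]
  rw [integral_of_le hM.le]
  refine setIntegral_eq_of_subset_of_forall_sdiff_eq_zero measurableSet_Ioi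
    (fun x hx => Set.Ioc_subset_Ioi_self hx) ?_
  rintro r ⟨h3, h4⟩
  simp only [Set.mem_Ioi, Set.mem_Ioc, not_and, not_le] at h3 h4
  have h5 : M < r := h4 h3
  have h6 : ∀ θ, F (cz r θ) = 0 := fun θ =>
    hz _ (by rw [norm_cz, abs_of_pos h3]; exact h5.le)
  simp_rw [h6]
  simp

/-- the property used for the class of maps; `Sv f` is Šverák's inequality -/
def Sv (f : ℂ → ℂ) : Prop := 0 ≤ ∫ z, LS (dz f z) (db f z)

theorem exists_radius {f : ℂ → ℂ} (hs : HasCompactSupport f) :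
    ∃ M : ℝ, 0 < M ∧ ∀ z, M ≤ ‖z‖ → f z = 0 ∧ fderiv ℝ f z = 0 := by
  obtain ⟨M, hM⟩ := hs.isBounded.subset_closedBall (0 : ℂ)
  refine ⟨max M 0 + 1, by positivity, fun z hz => ?_⟩
  have h1 : z ∉ tsupport f := by
    intro h
    have h2 := hM h
    rw [Metric.mem_closedBall, dist_zero_right] at h2
    have := le_max_left M 0
    linarith
  have h2 : f =ᶠ[𝓝 z] 0 := notMem_tsupport_iff_eventuallyEq.1 h1
  refine ⟨h2.self_of_nhds, ?_⟩
  rw [h2.fderiv_eq]
  simp

theorem LS_zero : LS 0 0 = 0 := by unfold LS; simp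

theorem dz_zero_of {f : ℂ → ℂ} {z : ℂ} (h : fderiv ℝ f z = 0) : dz f z = 0 ∧ db f z = 0 := by
  unfold dz db
  rw [h]
  simp

/-- **the radial class** -/
theorem sv_radial {f : ℂ → ℂ} (hf : ContDiff ℝ 1 f) (hs : HasCompactSupport f) {c : ℂ}
    (hyp : ∀ s, 0 < s → Col f s ∨ Round f c s) : Sv f := by
  obtain ⟨M, hM, hz⟩ := exists_radius hs
  unfold Sv
  have hc : Continuous fun z => LS (dz f z) (db f z) :=
    LS_continuous.comp ((dz_continuous hf).prodMk (db_continuous hf))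
  rw [plane_eq hc hM (fun z h => by
    obtain ⟨h1, h2⟩ := dz_zero_of (hz z h).2
    rw [h1, h2, LS_zero])]
  exact radial_nonneg hf hyp hM (fun θ => (hz _ (by
    rw [norm_cz, abs_of_pos hM])).1)

end Pool.Agent.Helper7.BU
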