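import Pool.Agent.Helper7.BU.Scalar

/-!
# Polar coordinates and the Burkholder–Šverák function; circles mapped into lines
-/

set_option autoImplicit false
set_option maxHeartbeats 400000

noncomputable section

open scoped ComplexConjugate Topology
open Complex Filter MeasureTheory intervalIntegral

namespace Pool.Agent.Helper7.BU

/-- `∂ f` -/
def dz (f : ℂ → ℂ) (z : ℂ) : ℂ := (fderiv ℝ f z 1 - I * fderiv ℝ f z I) / 2

/-- `∂̄ f` -/
def db (f : ℂ → ℂ) (z : ℂ) : ℂ := (fderiv ℝ f z 1 + I * fderiv ℝ f z I) / 2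

/-- the point with polar coordinates `r`, `θ` -/
def cz (r θ : ℝ) : ℂ := r * exp (θ * I)

/-- radial derivative -/
def AA (f : ℂ → ℂ) (r θ : ℝ) : ℂ := fderiv ℝ f (cz r θ) (exp (θ * I))

/-- tangential derivative -/
def TT (f : ℂ → ℂ) (r θ : ℝ) : ℂ := fderiv ℝ f (cz r θ) (I * exp (θ * I))

/-- the integrand in polar coordinates -/
def LP (f : ℂ → ℂ) (r θ : ℝ) : ℝ := LS (dz f (cz r θ)) (db f (cz r θ))

theorem LS_continuous : Continuous (fun p : ℂ × ℂ => LS p.1 p.2) := by
  unfold LS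
  refine Continuous.if_le (by fun_prop) (by fun_prop) (by fun_prop) (by fun_prop) ?_
  intro p hp
  have : ‖p.2‖ = 1 - ‖p.1‖ := by linarith
  rw [this]; ring

theorem fderiv_eq (f : ℂ → ℂ) (z v : ℂ) :
    fderiv ℝ f z v = dz f z * v + db f z * conj v := by
  have h1 : v = v.re • (1 : ℂ) + v.im • I := by
    simp only [real_smul, mul_one]
    exact (re_add_im v).symm
  have h2 : fderiv ℝ f z v = v.re • fderiv ℝ f z 1 + v.im • fderiv ℝ f z I := by
    conv_lhs => rw [h1]
    rw [map_add, map_smul, map_smul]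
  have h3 : conj v = v.re - v.im * I := by
    apply Complex.ext <;> simp
  have h4 : v = v.re + v.im * I := (re_add_im v).symm
  have hI : I * I = -1 := I_mul_I
  have key : ∀ x y : ℂ, x * fderiv ℝ f z 1 + y * fderiv ℝ f z I =
      dz f z * (x + y * I) + db f z * (x - y * I) := by
    intro x y
    unfold dz db
    linear_combination (y * fderiv ℝ f z I) * hI
  rw [h2, h3, real_smul, real_smul, key, re_add_im]

theorem hd_re {g : ℝ → ℂ} {g' : ℂ} {x : ℝ} (h : HasDerivAt g g' x) :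
    HasDerivAt (fun s => (g s).re) g'.re x :=
  Complex.reCLM.hasFDerivAt.comp_hasDerivAt x h

theorem hd_im {g : ℝ → ℂ} {g' : ℂ} {x : ℝ} (h : HasDerivAt g g' x) :
    HasDerivAt (fun s => (g s).im) g'.im x :=
  Complex.imCLM.hasFDerivAt.comp_hasDerivAt x h

theorem hd_conj {g : ℝ → ℂ} {g' : ℂ} {x : ℝ} (h : HasDerivAt g g' x) :
    HasDerivAt (fun s => conj (g s)) (conj g') x :=
  (Complex.conjCLE.toContinuousLinearMap).hasFDerivAt.comp_hasDerivAt x h

theorem exists_prim {g : ℝ → ℝ} (hg : Continuous g) :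
    ∃ Ψ : ℝ → ℝ, ∀ x, HasDerivAt Ψ (g x) x :=
  ⟨fun x => ∫ s in (0 : ℝ)..x, g s, fun x =>
    integral_hasDerivAt_right (hg.intervalIntegrable _ _)
      (hg.stronglyMeasurableAtFilter _ _) hg.continuousAt⟩

theorem norm_exp_I (θ : ℝ) : ‖exp (θ * I)‖ = 1 := norm_exp_ofReal_mul_I θ

theorem LS_polar {f : ℂ → ℂ} {r θ : ℝ} {u : ℂ} (hu : ‖u‖ = 1)
    (h : (TT f r θ * conj u).re = 0 ∨ (AA f r θ * conj u).im = 0) :
    L2 (AA f r θ * conj u).re (TT f r θ * conj u).im ≤ LP f r θ := by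
  have hA : AA f r θ = dz f (cz r θ) * exp (θ * I) + db f (cz r θ) * conj (exp (θ * I)) :=
    fderiv_eq _ _ _
  have hT : TT f r θ = I * (dz f (cz r θ) * exp (θ * I)) - I * (db f (cz r θ) * conj (exp (θ * I))) := by
    unfold TT
    rw [fderiv_eq, map_mul, conj_I]; ring
  have hI : I * I = -1 := I_mul_I
  have h1 : AA f r θ * conj u - I * (TT f r θ * conj u) =
      2 * (dz f (cz r θ) * exp (θ * I) * conj u) := by
    rw [hA, hT]
    linear_combination (-(dz f (cz r θ) * exp (θ * I)) * conj u +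
      (db f (cz r θ) * conj (exp (θ * I))) * conj u) * hI
  have h2 : AA f r θ * conj u + I * (TT f r θ * conj u) =
      2 * (db f (cz r θ) * conj (exp (θ * I)) * conj u) := by
    rw [hA, hT]
    linear_combination ((dz f (cz r θ) * exp (θ * I)) * conj u -
      (db f (cz r θ) * conj (exp (θ * I))) * conj u) * hI
  set a := AA f r θ * conj u
  set t := TT f r θ * conj u
  have hcu : ‖conj u‖ = 1 := by rw [RCLike.norm_conj, hu]
  have hce : ‖conj (exp (θ * I))‖ = 1 := by rw [RCLike.norm_conj, norm_exp_I]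
  have n1 : ‖a - I * t‖ ^ 2 = 4 * ‖dz f (cz r θ)‖ ^ 2 := by
    rw [h1, norm_mul, norm_mul, norm_mul, hcu, norm_exp_I]
    norm_num
    ring
  have n2 : ‖a + I * t‖ ^ 2 = 4 * ‖db f (cz r θ)‖ ^ 2 := by
    rw [h2, norm_mul, norm_mul, norm_mul, hcu, hce]
    norm_num
    ring
  have m1 : ‖a - I * t‖ ^ 2 = (a.re + t.im) ^ 2 + (a.im - t.re) ^ 2 := by
    rw [← Complex.normSq_eq_norm_sq, normSq_apply]
    simp only [sub_re, sub_im, mul_re, mul_im, I_re, I_im]
    ring
  have m2 : ‖a + I * t‖ ^ 2 = (a.re - t.im) ^ 2 + (a.im + t.re) ^ 2 := by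
    rw [← Complex.normSq_eq_norm_sq, normSq_apply]
    simp only [add_re, add_im, mul_re, mul_im, I_re, I_im]
    ring
  rcases h with h | h
  · refine L2_le_LS (q := a.im) ?_ ?_
    · rw [← n1, m1, h]; ring
    · rw [← n2, m2, h]; ring
  · refine L2_le_LS (q := t.re) ?_ ?_
    · rw [← n1, m1, h]; ring
    · rw [← n2, m2, h]; ring

theorem cz_continuous : Continuous (fun p : ℝ × ℝ => cz p.1 p.2) := by
  unfold cz; fun_prop

theorem hasDerivAt_cz_angle (r θ : ℝ) : HasDerivAt (fun s : ℝ => cz r s) (r * (I * exp (θ * I))) θ := by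
  unfold cz
  have h1 : HasDerivAt (fun s : ℝ => (s : ℂ) * I) I θ := by
    simpa using (Complex.ofRealCLM.hasDerivAt (x := θ)).mul_const I
  have h2 := (h1.cexp).const_mul (r : ℂ)
  refine h2.congr_deriv ?_
  ring

theorem hasDerivAt_cz_rad (r θ : ℝ) : HasDerivAt (fun s : ℝ => cz s θ) (exp (θ * I)) r := by
  unfold cz
  simpa using (Complex.ofRealCLM.hasDerivAt (x := r)).mul_const (exp (θ * I))

section

variable {f : ℂ → ℂ} (hf : ContDiff ℝ 1 f)

include hf

theorem hasDerivAt_angle (r θ : ℝ) :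
    HasDerivAt (fun s : ℝ => f (cz r s)) (r * TT f r θ) θ := by
  have h1 : HasFDerivAt f (fderiv ℝ f (cz r θ)) (cz r θ) :=
    (hf.differentiable one_ne_zero _).hasFDerivAt
  have h2 := h1.comp_hasDerivAt θ (hasDerivAt_cz_angle r θ)
  refine h2.congr_deriv ?_
  unfold TT
  rw [← real_smul, map_smul, real_smul]

theorem hasDerivAt_rad (r θ : ℝ) :
    HasDerivAt (fun s : ℝ => f (cz s θ)) (AA f r θ) r := by
  have h1 : HasFDerivAt f (fderiv ℝ f (cz r θ)) (cz r θ) :=
    (hf.differentiable one_ne_zero _).hasFDerivAt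
  exact h1.comp_hasDerivAt r (hasDerivAt_cz_rad r θ)

theorem AA_continuous : Continuous (fun p : ℝ × ℝ => AA f p.1 p.2) := by
  unfold AA
  exact ((hf.continuous_fderiv one_ne_zero).comp cz_continuous).clm_apply (by fun_prop)

theorem TT_continuous : Continuous (fun p : ℝ × ℝ => TT f p.1 p.2) := by
  unfold TT
  exact ((hf.continuous_fderiv one_ne_zero).comp cz_continuous).clm_apply (by fun_prop)

theorem dz_continuous : Continuous (dz f) := by
  unfold dz
  have h := hf.continuous_fderiv one_ne_zero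
  fun_prop

theorem db_continuous : Continuous (db f) := by
  unfold db
  have h := hf.continuous_fderiv one_ne_zero
  fun_prop

theorem LP_continuous : Continuous (fun p : ℝ × ℝ => LP f p.1 p.2) := by
  unfold LP
  exact LS_continuous.comp (((dz_continuous hf).comp cz_continuous).prodMk
    ((db_continuous hf).comp cz_continuous))

theorem f_cz_continuous : Continuous (fun p : ℝ × ℝ => f (cz p.1 p.2)) :=
  hf.continuous.comp cz_continuous

end

/-- the points of a circle are mapped into a line -/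
def Col (f : ℂ → ℂ) (s : ℝ) : Prop := ∀ θ₁ θ₂ θ₃ : ℝ,
  ((f (cz s θ₁) - f (cz s θ₃)) * conj (f (cz s θ₂) - f (cz s θ₃))).im = 0

/-- the mean over a circle -/
def PP (f : ℂ → ℂ) (r : ℝ) : ℝ := ∫ θ in (-Real.pi)..Real.pi, LP f r θ

theorem cz_pi (r : ℝ) : cz r Real.pi = cz r (-Real.pi) := by
  unfold cz
  push_cast
  rw [neg_mul, exp_pi_mul_I, exp_neg, exp_pi_mul_I]
  norm_num

section

variable {f : ℂ → ℂ} (hf : ContDiff ℝ 1 f)

include hf

omit hf in
theorem LP_nonneg_of_TT {r θ : ℝ} (h : TT f r θ = 0) : 0 ≤ LP f r θ := by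
  have h1 := LS_polar (f := f) (r := r) (θ := θ) (u := 1) norm_one (by left; simp [h])
  refine le_trans ?_ h1
  rw [h]
  simpa using L2_zero_nonneg _

theorem TT_eq_zero_of_point {r : ℝ} (hr : 0 < r) (hp : ∀ θ₁ θ₂, f (cz r θ₁) = f (cz r θ₂)) (θ : ℝ) :
    TT f r θ = 0 := by
  have h1 := hasDerivAt_angle hf r θ
  have h2 : (fun s : ℝ => f (cz r s)) = fun _ => f (cz r θ) := by
    funext s; exact hp s θ
  rw [h2] at h1
  have h3 := h1.unique (hasDerivAt_const θ (f (cz r θ)))
  have hr' : (r : ℂ) ≠ 0 := by exact_mod_cast hr.ne'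
  exact (mul_eq_zero.1 h3).resolve_left hr'

theorem PP_nonneg_of_point {r : ℝ} (hr : 0 < r) (hp : ∀ θ₁ θ₂, f (cz r θ₁) = f (cz r θ₂)) :
    0 ≤ PP f r := by
  unfold PP
  refine integral_nonneg (by linarith [Real.pi_pos]) fun θ _ => ?_
  exact LP_nonneg_of_TT (TT_eq_zero_of_point hf hr hp θ)

theorem line_him_deriv {r : ℝ} (hr : 0 < r) {v p : ℂ}
    (him : ∀ θ, ((f (cz r θ) - p) * conj v).im = 0) (θ : ℝ) :
    (TT f r θ * conj v).im = 0 := by
  have h0 : HasDerivAt (fun s => (f (cz r s) - p) * conj v) (r * TT f r θ * conj v) θ :=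
    ((hasDerivAt_angle hf r θ).sub_const _).mul_const _
  have h1 := hd_im h0
  have h2 : (fun s => ((f (cz r s) - p) * conj v).im) = fun _ => (0 : ℝ) := by
    funext s
    exact him s
  rw [h2] at h1
  have h3 := h1.unique (hasDerivAt_const θ (0 : ℝ))
  rw [mul_assoc, im_ofReal_mul] at h3
  exact (mul_eq_zero.1 h3).resolve_left hr.ne'

theorem line_pointwise {r : ℝ} (hr : 0 < r) {v p : ℂ} (hv : ‖v‖ = 1)
    (him : ∀ θ, ((f (cz r θ) - p) * conj v).im = 0) (θ : ℝ) :
    clamp (-(AA f r θ * conj v).im) * (r * (TT f r θ * conj v).re) ≤ r * LP f r θ := by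
  have hT := line_him_deriv hf hr him θ
  have hu : ‖-(I * v)‖ = 1 := by rw [norm_neg, norm_mul, norm_I, hv, one_mul]
  have hcu : conj (-(I * v)) = I * conj v := by rw [map_neg, map_mul, conj_I]; ring
  have k1 : (TT f r θ * conj (-(I * v))).re = 0 := by
    rw [hcu, show TT f r θ * (I * conj v) = I * (TT f r θ * conj v) by ring, I_mul_re, hT,
      neg_zero]
  have k2 : (TT f r θ * conj (-(I * v))).im = (TT f r θ * conj v).re := by
    rw [hcu, show TT f r θ * (I * conj v) = I * (TT f r θ * conj v) by ring, I_mul_im]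
  have k3 : (AA f r θ * conj (-(I * v))).re = -(AA f r θ * conj v).im := by
    rw [hcu, show AA f r θ * (I * conj v) = I * (AA f r θ * conj v) by ring, I_mul_re]
  have h1 := LS_polar hu (Or.inl k1)
  rw [k2, k3] at h1
  have h2 := (L2_clamp (-(AA f r θ * conj v).im) (TT f r θ * conj v).re).trans h1
  have h3 := mul_le_mul_of_nonneg_left h2 hr.le
  linarith

theorem TT_cont (r : ℝ) : Continuous (fun θ => TT f r θ) := by
  have h2 : Continuous (fun θ : ℝ => ((r, θ) : ℝ × ℝ)) :=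
    Continuous.prodMk continuous_const continuous_id
  have h3 := (TT_continuous hf).comp h2
  exact h3

theorem AA_cont (r : ℝ) : Continuous (fun θ => AA f r θ) := by
  have h2 : Continuous (fun θ : ℝ => ((r, θ) : ℝ × ℝ)) :=
    Continuous.prodMk continuous_const continuous_id
  have h3 := (AA_continuous hf).comp h2
  exact h3

theorem LP_cont (r : ℝ) : Continuous (fun θ => LP f r θ) := by
  have h2 : Continuous (fun θ : ℝ => ((r, θ) : ℝ × ℝ)) :=
    Continuous.prodMk continuous_const continuous_id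
  have h3 := (LP_continuous hf).comp h2
  exact h3

theorem f_cont (r : ℝ) : Continuous (fun θ => f (cz r θ)) := by
  have h2 : Continuous (fun θ : ℝ => ((r, θ) : ℝ × ℝ)) :=
    Continuous.prodMk continuous_const continuous_id
  have h3 := (f_cz_continuous hf).comp h2
  exact h3

theorem line_rad {r : ℝ} (hcol : ∀ᶠ s in 𝓝 r, Col f s) (θ θ₁ θ₂ : ℝ) :
    ((AA f r θ - AA f r θ₂) * conj (f (cz r θ₁) - f (cz r θ₂)) +
      (f (cz r θ) - f (cz r θ₂)) * conj (AA f r θ₁ - AA f r θ₂)).im = 0 := by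
  have h2 : HasDerivAt (fun s => f (cz s θ) - f (cz s θ₂)) (AA f r θ - AA f r θ₂) r :=
    (hasDerivAt_rad hf r θ).sub (hasDerivAt_rad hf r θ₂)
  have h3 : HasDerivAt (fun s => f (cz s θ₁) - f (cz s θ₂)) (AA f r θ₁ - AA f r θ₂) r :=
    (hasDerivAt_rad hf r θ₁).sub (hasDerivAt_rad hf r θ₂)
  have h1 : HasDerivAt (fun s => (f (cz s θ) - f (cz s θ₂)) * conj (f (cz s θ₁) - f (cz s θ₂)))
      ((AA f r θ - AA f r θ₂) * conj (f (cz r θ₁) - f (cz r θ₂)) +
        (f (cz r θ) - f (cz r θ₂)) * conj (AA f r θ₁ - AA f r θ₂)) r := h2.mul (hd_conj h3)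
  have h4 : (fun s => ((f (cz s θ) - f (cz s θ₂)) *
      conj (f (cz s θ₁) - f (cz s θ₂))).im) =ᶠ[𝓝 r] fun _ => (0 : ℝ) := by
    filter_upwards [hcol] with s hs
    exact hs θ θ₁ θ₂
  exact ((hd_im h1).congr_of_eventuallyEq h4.symm).unique (hasDerivAt_const r (0 : ℝ))

end

end Pool.Agent.Helper7.BU
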