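import Pool.Agent.Helper7.BU.Round

/-!
# Circles mapped into lines or circles about a fixed point
-/

set_option autoImplicit false
set_option maxHeartbeats 400000

noncomputable section

open scoped ComplexConjugate Topology Classical
open Complex Filter MeasureTheory intervalIntegral

namespace Pool.Agent.Helper7.BU

/-- the calibration along the radii -/
def HH (f : ℂ → ℂ) (c : ℂ) (r : ℝ) : ℝ := if Col f r then 0 else Hs (wn f c r) r (Rd f c r)

/-- its derivative -/
def hh (f : ℂ → ℂ) (c : ℂ) (r : ℝ) : ℝ :=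
  if Col f r then 0 else hs (wn f c r) r (Rd f c r) (rho f c r)

section

variable {f : ℂ → ℂ} (hf : ContDiff ℝ 1 f) {c : ℂ}

theorem col_of_point {r : ℝ} (hp : ∀ θ, f (cz r θ) = f (cz r 0)) : Col f r := by
  intro θ₁ θ₂ θ₃
  rw [hp θ₁, hp θ₃, sub_self, zero_mul, zero_im]

include hf

theorem f_cont_rad (θ : ℝ) : Continuous (fun s => f (cz s θ)) := by
  have h2 : Continuous (fun s : ℝ => ((s, θ) : ℝ × ℝ)) :=
    Continuous.prodMk continuous_id continuous_const
  have h3 := (f_cz_continuous hf).comp h2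
  exact h3

theorem not_col_eventually {r : ℝ} (h : ¬ Col f r) : ∀ᶠ s in 𝓝 r, ¬ Col f s := by
  unfold Col at h
  push Not at h
  obtain ⟨θ₁, θ₂, θ₃, h1⟩ := h
  have hc : Continuous fun s => ((f (cz s θ₁) - f (cz s θ₃)) *
      conj (f (cz s θ₂) - f (cz s θ₃))).im := by
    have k1 := f_cont_rad hf θ₁
    have k2 := f_cont_rad hf θ₂
    have k3 := f_cont_rad hf θ₃
    exact continuous_im.comp ((k1.sub k3).mul (continuous_conj.comp (k2.sub k3)))
  filter_upwards [hc.continuousAt.eventually_ne h1] with s hs hcol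
  exact hs (hcol θ₁ θ₂ θ₃)

theorem not_round_eventually {r : ℝ} (h : ¬ Round f c r) : ∀ᶠ s in 𝓝 r, ¬ Round f c s := by
  unfold Round at h
  push Not at h
  obtain ⟨θ, h1⟩ := h
  have hc : Continuous fun s => ‖f (cz s θ) - c‖ - ‖f (cz s 0) - c‖ := by
    have k1 := f_cont_rad hf θ
    have k2 := f_cont_rad hf 0
    exact (continuous_norm.comp (k1.sub continuous_const)).sub
      (continuous_norm.comp (k2.sub continuous_const))
  filter_upwards [hc.continuousAt.eventually_ne (sub_ne_zero.2 h1)] with s hs hround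
  exact hs (by rw [hround θ, sub_self])

theorem point_of_col_round {r : ℝ} (hr : 0 < r) (h1 : Col f r) (h2 : Round f c r) (θ₁ θ₂ : ℝ) :
    f (cz r θ₁) = f (cz r θ₂) := by
  by_contra h12
  have hE0 : f (cz r θ₁) - f (cz r θ₂) ≠ 0 := sub_ne_zero.2 h12
  obtain ⟨E, hE⟩ : ∃ E : ℂ, E = f (cz r θ₁) - f (cz r θ₂) := ⟨_, rfl⟩
  rw [← hE] at hE0
  have hnE : 0 < ‖E‖ := norm_pos_iff.2 hE0
  have hEE : E * conj E = (‖E‖ : ℂ) ^ 2 := by
    rw [mul_conj, normSq_eq_norm_sq]; push_cast; rfl
  -- coordinate along the line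
  have him : ∀ θ, ((f (cz r θ) - f (cz r θ₂)) * conj E).im = 0 := by
    intro θ
    rw [hE]; exact h1 θ θ₁ θ₂
  have hT := fun θ => line_him_deriv hf hr him θ
  obtain ⟨q, hq⟩ : ∃ q : ℝ → ℝ, ∀ θ, q θ = ((f (cz r θ) - c) * conj E).re := ⟨_, fun _ => rfl⟩
  have hqd : ∀ θ, HasDerivAt q (r * (TT f r θ * conj E).re) θ := by
    intro θ
    have h0 : HasDerivAt (fun s => (f (cz r s) - c) * conj E) (r * TT f r θ * conj E) θ :=
      ((hasDerivAt_angle hf r θ).sub_const _).mul_const _
    have h3 := hd_re h0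
    have h4 : q = fun s => ((f (cz r s) - c) * conj E).re := funext hq
    rw [h4]
    refine h3.congr_deriv ?_
    rw [mul_assoc, re_ofReal_mul]
  obtain ⟨b, hb⟩ : ∃ b : ℝ, ∀ θ, ((f (cz r θ) - c) * conj E).im = b := by
    refine ⟨((f (cz r θ₂) - c) * conj E).im, fun θ => ?_⟩
    have h3 := him θ
    have e : (f (cz r θ) - c) * conj E = (f (cz r θ) - f (cz r θ₂)) * conj E +
        (f (cz r θ₂) - c) * conj E := by ring
    rw [e, add_im, h3, zero_add]
  have hsq : ∀ θ, q θ ^ 2 = q 0 ^ 2 := by
    intro θ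
    have h3 : ∀ θ, q θ ^ 2 + b ^ 2 = (‖f (cz r 0) - c‖ * ‖E‖) ^ 2 := by
      intro θ
      rw [hq, ← hb θ]
      have h4 : ‖(f (cz r θ) - c) * conj E‖ ^ 2 = (‖f (cz r 0) - c‖ * ‖E‖) ^ 2 := by
        rw [norm_mul, RCLike.norm_conj, h2 θ]
      rw [← h4, ← normSq_eq_norm_sq, normSq_apply]
      ring
    have := h3 θ
    have := h3 0
    linarith
  have hconst : ∀ θ, q θ = q 0 := by
    by_cases h0 : q 0 = 0
    · intro θ
      have := hsq θ
      rw [h0] at this ⊢
      exact pow_eq_zero_iff (two_ne_zero) |>.1 (by linarith)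
    · have hne : ∀ θ, q θ ≠ 0 := by
        intro θ h3
        have := hsq θ
        rw [h3] at this
        exact h0 (pow_eq_zero_iff (two_ne_zero) |>.1 (by linarith))
      have hz : ∀ θ, r * (TT f r θ * conj E).re = 0 := by
        intro θ
        have h3 : HasDerivAt (fun s => q s ^ 2) (2 * q θ * (r * (TT f r θ * conj E).re)) θ := by
          have := (hqd θ).pow 2
          refine this.congr_deriv ?_
          push_cast
          ring
        have h4 : (fun s => q s ^ 2) = fun _ => q 0 ^ 2 := funext hsq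
        rw [h4] at h3
        have h5 := h3.unique (hasDerivAt_const θ _)
        have h6 : 2 * q θ ≠ 0 := mul_ne_zero two_ne_zero (hne θ)
        exact (mul_eq_zero.1 h5).resolve_left h6
      intro θ
      exact is_const_of_deriv_eq_zero (fun x => (hqd x).differentiableAt)
        (fun x => by rw [(hqd x).deriv, hz x]) _ _
  apply hE0
  have h3 : E * conj E = 0 := by
    have e : E * conj E = (f (cz r θ₁) - c) * conj E - (f (cz r θ₂) - c) * conj E := by
      rw [← sub_mul, hE]; ring
    rw [e]
    apply Complex.ext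
    · rw [sub_re, ← hq, ← hq, hconst θ₁, hconst θ₂, sub_self, zero_re]
    · rw [sub_im, hb, hb, sub_self, zero_im]
  rw [hEE] at h3
  have h4 : (‖E‖ : ℂ) = 0 := by
    exact pow_eq_zero_iff (two_ne_zero) |>.1 h3
  rw [ofReal_eq_zero, norm_eq_zero] at h4
  exact h4

omit hf in
theorem Rd_pos_of_not_col {r : ℝ} (h1 : ¬ Col f r) (h2 : Round f c r) : 0 < Rd f c r := by
  have h3 : 0 ≤ Rd f c r := norm_nonneg _
  rcases h3.eq_or_lt with h4 | h4
  · exfalso
    apply h1
    apply col_of_point
    intro θ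
    have h5 : ‖f (cz r 0) - c‖ = 0 := h4.symm
    have h6 := h2 θ
    rw [h5, norm_eq_zero, sub_eq_zero] at h6
    rw [norm_eq_zero, sub_eq_zero] at h5
    rw [h6, h5]
  · exact h4

/-- the derivative of the calibration where the image is not on a line -/
theorem HH_deriv_round (hyp : ∀ s, 0 < s → Col f s ∨ Round f c s) {r : ℝ} (hr : 0 < r)
    (h : ¬ Col f r) : HasDerivAt (HH f c) (hh f c r) r := by
  have h0 : Round f c r := (hyp r hr).resolve_left h
  have hR := Rd_pos_of_not_col h h0
  unfold hh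
  rw [if_neg h]
  refine (hasDerivAt_Hs (hasDerivAt_Rd hf hR)).congr_of_eventuallyEq ?_
  filter_upwards [not_col_eventually hf h, wn_const hf hr h0 hR, eventually_gt_nhds hr]
    with s h1 h2 h3
  unfold HH
  rw [if_neg h1, h2 ((hyp s h3).resolve_left h1)]

theorem hh_le_round (hyp : ∀ s, 0 < s → Col f s ∨ Round f c s) {r : ℝ} (hr : 0 < r)
    (h : ¬ Col f r) : hh f c r ≤ r * PP f r / (2 * Real.pi) := by
  have h0 : Round f c r := (hyp r hr).resolve_left h
  have hR := Rd_pos_of_not_col h h0
  obtain ⟨k, hk⟩ := wn_int hf hr h0 hR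
  have hN : wn f c r ≤ 0 ∨ 1 ≤ wn f c r := by
    rw [hk]
    rcases le_or_gt k 0 with h1 | h1
    · left; exact_mod_cast h1
    · right; exact_mod_cast h1
  unfold hh
  rw [if_neg h]
  refine (hs_le hN hr hR.le).trans ?_
  have hround : ∀ᶠ s in 𝓝 r, Round f c s := by
    filter_upwards [not_col_eventually hf h, eventually_gt_nhds hr] with s h1 h3
    exact (hyp s h3).resolve_left h1
  have h1 := PP_round hf hr hround hR
  have hpi := Real.pi_pos
  rw [le_div_iff₀ (by positivity)]
  calc r * L2 (rho f c r) (wn f c r * Rd f c r / r) * (2 * Real.pi)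
      = r * (2 * Real.pi * L2 (rho f c r) (wn f c r * Rd f c r / r)) := by ring
    _ ≤ r * PP f r := mul_le_mul_of_nonneg_left h1 hr.le

/-- the derivative of the calibration where the image is on a line -/
theorem HH_deriv_col (hyp : ∀ s, 0 < s → Col f s ∨ Round f c s) {r : ℝ} (hr : 0 < r)
    (h : Col f r) : HasDerivAt (HH f c) 0 r ∧ 0 ≤ PP f r := by
  by_cases hround : Round f c r
  · have hp := point_of_col_round hf hr h hround
    refine ⟨?_, PP_nonneg_of_point hf hr hp⟩
    have hTT := TT_eq_zero_of_point hf hr hp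
    -- the tangential derivative is small near `r`
    have hsmall : ∀ ε : ℝ, 0 < ε → ∀ᶠ s in 𝓝 r, ∀ θ ∈ Set.Icc (-Real.pi) Real.pi,
        ‖TT f s θ‖ ≤ ε := by
      intro ε hε
      apply isCompact_Icc.eventually_forall_of_forall_eventually
      intro θ _
      have h1 : Tendsto (fun p : ℝ × ℝ => ‖TT f p.1 p.2‖) (𝓝 (r, θ)) (𝓝 ‖TT f r θ‖) :=
        (continuous_norm.comp (TT_continuous hf)).continuousAt
      rw [hTT θ, norm_zero] at h1
      filter_upwards [h1.eventually_lt_const hε] with p hp
      exact hp.le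
    have hH0 : HH f c r = 0 := by unfold HH; rw [if_pos h]
    -- bound for the calibration
    have hbd : ∀ s, 0 < s → ¬ Col f s → ∀ ε, (∀ θ ∈ Set.Icc (-Real.pi) Real.pi, ‖TT f s θ‖ ≤ ε) →
        |HH f c s| ≤ s * ε * Rd f c s / 2 ∧ (s * ε < Rd f c s → HH f c s = 0) := by
      intro s hs h1 ε h2
      have h3 := (hyp s hs).resolve_left h1
      have hR := Rd_pos_of_not_col h1 h3
      have h4 := abs_wn_le hs h3 hR h2
      constructor
      · unfold HH
        rw [if_neg h1]
        refine (abs_Hs_le' hs.le hR.le).trans ?_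
        have : |wn f c s| * Rd f c s ^ 2 / 2 = (|wn f c s| * Rd f c s) * Rd f c s / 2 := by ring
        rw [this]
        have := mul_le_mul_of_nonneg_right h4 hR.le
        linarith
      · intro h5
        obtain ⟨k, hk⟩ := wn_int hf hs h3 hR
        have h6 : |wn f c s| < 1 := by
          by_contra hcon
          push Not at hcon
          nlinarith
        rw [hk] at h6
        have h7 : |k| < 1 := by exact_mod_cast h6
        have h8 : k = 0 := by rw [abs_lt] at h7; omega
        unfold HH
        rw [if_neg h1, hk, h8]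
        unfold Hs
        simp
    rcases (norm_nonneg (f (cz r 0) - c)).eq_or_lt with hz | hz
    · -- the circle is mapped to `c`
      have hzc : f (cz r 0) - c = 0 := norm_eq_zero.1 hz.symm
      have hO : (fun s => f (cz s 0) - f (cz r 0)) =O[𝓝 r] fun s => s - r :=
        (hasDerivAt_rad hf r 0).differentiableAt.isBigO_sub
      obtain ⟨C, hC0, hC⟩ := hO.exists_pos
      rw [Asymptotics.isBigOWith_iff] at hC
      rw [hasDerivAt_iff_isLittleO]
      rw [Asymptotics.isLittleO_iff]
      intro ε hε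
      have hε' : 0 < ε / ((r + 1) * C) := by positivity
      filter_upwards [hsmall _ hε', hC, eventually_gt_nhds hr, eventually_lt_nhds (lt_add_one r)]
        with s h1 h2 h3 h4
      rw [hH0, sub_zero, smul_zero, sub_zero, Real.norm_eq_abs]
      by_cases hcs : Col f s
      · unfold HH
        rw [if_pos hcs, abs_zero]
        positivity
      · have h5 := (hbd s h3 hcs _ h1).1
        have h6 : Rd f c s ≤ C * ‖s - r‖ := by
          have : f (cz s 0) - f (cz r 0) = f (cz s 0) - c := by
            rw [sub_eq_zero.1 hzc]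
          rw [this] at h2
          exact h2
        refine h5.trans ?_
        have h7 : 0 ≤ ‖s - r‖ := norm_nonneg _
        have h8 : s * (ε / ((r + 1) * C)) ≤ ε / C := by
          rw [mul_div_assoc', div_le_div_iff₀ (by positivity) hC0]
          have : s * ε * C ≤ (r + 1) * ε * C := by gcongr
          linarith
        have h9 : 0 ≤ Rd f c s := norm_nonneg _
        calc s * (ε / ((r + 1) * C)) * Rd f c s / 2 ≤ ε / C * Rd f c s / 2 := by gcongr
          _ ≤ ε / C * (C * ‖s - r‖) / 2 := by gcongr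
          _ = ε * ‖s - r‖ / 2 := by field_simp
          _ ≤ ε * ‖s - r‖ := by nlinarith
    · -- the circle is mapped to another point
      have hRr : 0 < Rd f c r := hz
      refine (hasDerivAt_const r (0 : ℝ)).congr_of_eventuallyEq ?_
      have hε : 0 < Rd f c r / (2 * (r + 1)) := by positivity
      filter_upwards [hsmall _ hε, eventually_gt_nhds hr, eventually_lt_nhds (lt_add_one r),
        (Rd_cont hf c).continuousAt.eventually_const_lt (show Rd f c r / 2 < Rd f c r by linarith)]
        with s h1 h2 h3 h4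
      by_cases hcs : Col f s
      · unfold HH; rw [if_pos hcs]
      · apply (hbd s h2 hcs _ h1).2
        have : s * (Rd f c r / (2 * (r + 1))) ≤ Rd f c r / 2 := by
          rw [mul_div_assoc', div_le_div_iff₀ (by positivity) (by norm_num)]
          nlinarith
        linarith
  · have h1 := not_round_eventually hf hround
    have hcol : ∀ᶠ s in 𝓝 r, Col f s := by
      filter_upwards [h1, eventually_gt_nhds hr] with s h2 h3
      exact (hyp s h3).resolve_right h2
    refine ⟨(hasDerivAt_const r (0 : ℝ)).congr_of_eventuallyEq ?_, PP_nonneg_of_line hf hr hcol⟩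
    filter_upwards [hcol] with s hs
    unfold HH
    rw [if_pos hs]

theorem HH_deriv (hyp : ∀ s, 0 < s → Col f s ∨ Round f c s) {r : ℝ} (hr : 0 < r) :
    HasDerivAt (HH f c) (hh f c r) r := by
  by_cases h : Col f r
  · have h1 := (HH_deriv_col hf hyp hr h).1
    unfold hh
    rw [if_pos h]
    exact h1
  · exact HH_deriv_round hf hyp hr h

theorem hh_le (hyp : ∀ s, 0 < s → Col f s ∨ Round f c s) {r : ℝ} (hr : 0 < r) :
    hh f c r ≤ r * PP f r / (2 * Real.pi) := by
  by_cases h : Col f r
  · have h1 := (HH_deriv_col hf hyp hr h).2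
    unfold hh
    rw [if_pos h]
    positivity
  · exact hh_le_round hf hyp hr h

omit hf in
theorem abs_HH_le {r : ℝ} (hr : 0 ≤ r) : |HH f c r| ≤ r * Rd f c r := by
  have h1 : 0 ≤ Rd f c r := norm_nonneg _
  unfold HH
  split_ifs
  · rw [abs_zero]; positivity
  · exact abs_Hs_le hr h1

theorem PP_continuous : Continuous (PP f) :=
  continuous_parametric_intervalIntegral_of_continuous' (LP_continuous hf) _ _

/-- the integral in polar coordinates is nonnegative -/
theorem radial_nonneg (hyp : ∀ s, 0 < s → Col f s ∨ Round f c s) {M : ℝ} (hM : 0 < M)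
    (hz : ∀ θ, f (cz M θ) = 0) : 0 ≤ ∫ r in (0 : ℝ)..M, r * PP f r := by
  have hpi := Real.pi_pos
  have hcont : Continuous fun r => r * PP f r := continuous_id.mul (PP_continuous hf)
  have hφ : Continuous fun r => r * PP f r / (2 * Real.pi) := hcont.div_const _
  have hHM : HH f c M = 0 := by
    unfold HH
    rw [if_pos (col_of_point (fun θ => by rw [hz, hz]))]
  have key : ∀ δ, 0 < δ → δ < M →
      -(δ * Rd f c δ) ≤ ∫ r in δ..M, r * PP f r / (2 * Real.pi) := by
    intro δ h1 h2
    have h3 := sub_le_integral_of_hasDeriv_right_of_le (g := HH f c) (g' := hh f c) h2.le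
      (fun x hx => (HH_deriv hf hyp (h1.trans_le hx.1)).continuousAt.continuousWithinAt)
      (fun x hx => (HH_deriv hf hyp (h1.trans hx.1)).hasDerivWithinAt)
      (hφ.integrableOn_Icc) (fun x hx => hh_le hf hyp (h1.trans hx.1))
    rw [hHM] at h3
    have h4 := abs_HH_le (f := f) (c := c) h1.le
    rw [abs_le] at h4
    linarith [h4.2]
  have hlim1 : Tendsto (fun δ : ℝ => -(δ * Rd f c δ)) (𝓝[>] 0) (𝓝 0) := by
    have h1 : Tendsto (fun δ : ℝ => -(δ * Rd f c δ)) (𝓝 0) (𝓝 (-(0 * Rd f c 0))) :=
      (continuous_id.mul (Rd_cont hf c)).neg.continuousAt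
    rw [zero_mul, neg_zero] at h1
    exact h1.mono_left nhdsWithin_le_nhds
  have hlim2 : Tendsto (fun δ : ℝ => ∫ r in δ..M, r * PP f r / (2 * Real.pi)) (𝓝[>] 0)
      (𝓝 (∫ r in (0 : ℝ)..M, r * PP f r / (2 * Real.pi))) := by
    have h1 : Continuous fun δ : ℝ => ∫ r in δ..M, r * PP f r / (2 * Real.pi) := by
      have h2 : (fun δ : ℝ => ∫ r in δ..M, r * PP f r / (2 * Real.pi)) =
          fun δ => -∫ r in M..δ, r * PP f r / (2 * Real.pi) := by
        funext δ; rw [integral_symm]
      rw [h2]
      exact (continuous_primitive (fun a b => hφ.intervalIntegrable a b) M).neg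
    exact (h1.continuousAt (x := 0)).tendsto.mono_left nhdsWithin_le_nhds
  have h1 : 0 ≤ ∫ r in (0 : ℝ)..M, r * PP f r / (2 * Real.pi) := by
    refine le_of_tendsto_of_tendsto hlim1 hlim2 ?_
    filter_upwards [Ioo_mem_nhdsGT hM] with δ hδ
    exact key δ hδ.1 hδ.2
  rw [intervalIntegral.integral_div] at h1
  have h2 := mul_nonneg h1 (by positivity : (0 : ℝ) ≤ 2 * Real.pi)
  rwa [div_mul_cancel₀ _ (by positivity)] at h2

end

end Pool.Agent.Helper7.BU
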