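import Mathlib

/-!
# The Burkholder–Šverák function: scalar inequalities
-/

set_option autoImplicit false

noncomputable section

namespace Pool.Agent.Helper7.BU

/-- the Burkholder–Šverák function -/
def LS (z w : ℂ) : ℝ := if ‖z‖ + ‖w‖ ≤ 1 then ‖z‖ ^ 2 - ‖w‖ ^ 2 else 2 * ‖z‖ - 1

/-- its value for diagonal matrices -/
def L2 (x b : ℝ) : ℝ := if |x| ≤ 1 ∧ |b| ≤ 1 then x * b else |x + b| - 1

theorem L2_comm (x b : ℝ) : L2 x b = L2 b x := by
  unfold L2
  by_cases h : |x| ≤ 1 ∧ |b| ≤ 1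
  · rw [if_pos h, if_pos h.symm, mul_comm]
  · rw [if_neg h, if_neg (fun h' => h h'.symm), add_comm]

theorem L2_neg (x b : ℝ) : L2 (-x) (-b) = L2 x b := by
  unfold L2
  simp only [abs_neg, neg_mul_neg]
  rw [show -x + -b = -(x + b) by ring, abs_neg]

theorem L2_ge1 {x b : ℝ} (hx : |x| ≤ 1) : x * b ≤ L2 x b := by
  unfold L2
  split_ifs with h
  · exact le_rfl
  · have hb : 1 < |b| := by
      by_contra hb
      exact h ⟨hx, not_lt.1 hb⟩
    rw [abs_le] at hx
    rcases lt_abs.1 hb with h1 | h1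
    · have := le_abs_self (x + b)
      nlinarith
    · have := neg_le_abs (x + b)
      nlinarith

theorem L2_ge1' {x b : ℝ} (hb : |b| ≤ 1) : x * b ≤ L2 x b := by
  rw [L2_comm, mul_comm]; exact L2_ge1 hb

theorem L2_ge2 (x b : ℝ) : x + b - 1 ≤ L2 x b := by
  unfold L2
  split_ifs with h
  · obtain ⟨h1, h2⟩ := h
    rw [abs_le] at h1 h2
    nlinarith
  · have := le_abs_self (x + b)
    linarith

theorem L2_ge3 (x b : ℝ) : -(x + b) - 1 ≤ L2 x b := by
  unfold L2
  split_ifs with h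
  · obtain ⟨h1, h2⟩ := h
    rw [abs_le] at h1 h2
    nlinarith
  · have := neg_le_abs (x + b)
    linarith

theorem L2_cases (x b : ℝ) :
    (|x| ≤ 1 ∧ L2 x b = x * b) ∨ L2 x b = x + b - 1 ∨ L2 x b = -(x + b) - 1 := by
  unfold L2
  split_ifs with h
  · exact Or.inl ⟨h.1, rfl⟩
  · rcases abs_choice (x + b) with h1 | h1
    · right; left; rw [h1]
    · right; right; rw [h1]

/-- truncation -/
def clamp (x : ℝ) : ℝ := max (-1) (min 1 x)

theorem clamp_continuous : Continuous clamp := by unfold clamp; fun_prop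

theorem L2_clamp (x b : ℝ) : clamp x * b ≤ L2 x b := by
  unfold clamp
  rcases le_total x 1 with h1 | h1
  · rcases le_total (-1) x with h2 | h2
    · rw [min_eq_right h1, max_eq_right h2]
      exact L2_ge1 (abs_le.2 ⟨h2, h1⟩)
    · rw [min_eq_right h1, max_eq_left h2]
      have := L2_ge3 x b
      linarith
  · rw [min_eq_left h1, max_eq_right (by norm_num)]
    have := L2_ge2 x b
    linarith

theorem L2_zero_nonneg (x : ℝ) : 0 ≤ L2 x 0 := by
  have := L2_clamp x 0
  simpa using this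

/-- comparison of a triangular matrix with its diagonal -/
theorem L2_le_LS {z w : ℂ} {x b q : ℝ} (hz : 4 * ‖z‖ ^ 2 = (x + b) ^ 2 + q ^ 2)
    (hw : 4 * ‖w‖ ^ 2 = (x - b) ^ 2 + q ^ 2) : L2 x b ≤ LS z w := by
  set Z := ‖z‖ with hZ
  set V := ‖w‖ with hV
  have hZ0 : 0 ≤ Z := norm_nonneg _
  have hV0 : 0 ≤ V := norm_nonneg _
  have h1 : |x + b| ≤ 2 * Z := abs_le_of_sq_le_sq (by nlinarith [sq_nonneg q]) (by linarith)
  have h2 : |x - b| ≤ 2 * V := abs_le_of_sq_le_sq (by nlinarith [sq_nonneg q]) (by linarith)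
  have hxb : x * b = Z ^ 2 - V ^ 2 := by linarith
  unfold LS
  rw [← hZ, ← hV]
  split_ifs with hs
  · have h3 : |x| ≤ 1 ∧ |b| ≤ 1 := by
      rw [abs_le] at h1 h2
      constructor <;> rw [abs_le] <;> constructor <;> linarith
    unfold L2
    rw [if_pos h3, hxb]
  · have hs' : 1 < Z + V := not_le.1 hs
    unfold L2
    split_ifs with h3
    · rw [hxb]
      rcases le_total Z 1 with h4 | h4
      · nlinarith
      · have h5 : x * b ≤ 1 := by
          obtain ⟨h6, h7⟩ := h3
          rw [abs_le] at h6 h7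
          nlinarith
        nlinarith
    · linarith

/-- the calibrating function -/
def Hf (K r R : ℝ) : ℝ := K * R ^ 2 / 2 - (max 0 (K * R - r)) ^ 2 / (2 * K)

theorem Hf_nonneg {K r R : ℝ} (hK : 0 < K) (hr : 0 ≤ r) (hR : 0 ≤ R) : 0 ≤ Hf K r R := by
  unfold Hf
  rw [sub_nonneg, div_le_div_iff₀ (by positivity) (by norm_num)]
  have h0 : 0 ≤ max 0 (K * R - r) := le_max_left _ _
  have h1 : max 0 (K * R - r) ≤ K * R := max_le (by positivity) (by linarith)
  have h2 : max 0 (K * R - r) ^ 2 ≤ (K * R) ^ 2 := pow_le_pow_left₀ h0 h1 2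
  nlinarith

theorem Hf_le {K r R : ℝ} (hK : 0 < K) : Hf K r R ≤ K * R ^ 2 / 2 := by
  unfold Hf
  have : 0 ≤ (max 0 (K * R - r)) ^ 2 / (2 * K) := by positivity
  linarith

theorem Hf_le' {K r R : ℝ} (hK : 0 < K) (hr : 0 ≤ r) (hR : 0 ≤ R) : Hf K r R ≤ r * R := by
  rcases le_total (K * R) r with h | h
  · refine (Hf_le hK).trans ?_
    nlinarith [mul_nonneg hr hR]
  · unfold Hf
    rw [max_eq_right (by linarith)]
    have e : K * R ^ 2 / 2 - (K * R - r) ^ 2 / (2 * K) = r * R - r ^ 2 / (2 * K) := by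
      field_simp
      ring
    rw [e]
    have : 0 ≤ r ^ 2 / (2 * K) := by positivity
    linarith

theorem K2pos {K r R ρ : ℝ} (hK : 1 ≤ K) (hr : 0 < r) (hR : 0 ≤ R) :
    K * R * ρ - max 0 (K * R - r) * (ρ - 1 / K) ≤ r * L2 ρ (K * R / r) := by
  have hK0 : 0 < K := by linarith
  rcases le_total (K * R) r with h | h
  · rw [max_eq_left (by linarith)]
    have hb : |K * R / r| ≤ 1 := by
      rw [abs_of_nonneg (by positivity), div_le_one hr]; exact h
    have h1 := mul_le_mul_of_nonneg_left (L2_ge1' (x := ρ) hb) hr.le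
    have e : r * (ρ * (K * R / r)) = K * R * ρ := by field_simp
    linarith
  · rw [max_eq_right (by linarith)]
    have h1 := mul_le_mul_of_nonneg_left (L2_ge2 ρ (K * R / r)) hr.le
    have e : r * (ρ + K * R / r - 1) = r * ρ + K * R - r := by field_simp
    have e2 : K * R * ρ - (K * R - r) * (ρ - 1 / K) = r * ρ + R - r / K := by
      field_simp; ring
    rw [e2]
    have h2 : r / K ≤ R := by rw [div_le_iff₀ hK0]; linarith
    have h3 : r = K * (r / K) := by field_simp
    nlinarith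

theorem K2neg {K r R ρ : ℝ} (hK : 0 < K) (hr : 0 < r) (hR : 0 ≤ R) :
    -(K * R * ρ - max 0 (K * R - r) * (ρ - 1 / K)) ≤ r * L2 ρ (-(K * R / r)) := by
  rcases le_total (K * R) r with h | h
  · rw [max_eq_left (by linarith)]
    have hb : |-(K * R / r)| ≤ 1 := by
      rw [abs_neg, abs_of_nonneg (by positivity), div_le_one hr]; exact h
    have h1 := mul_le_mul_of_nonneg_left (L2_ge1' (x := ρ) hb) hr.le
    have e : r * (ρ * -(K * R / r)) = -(K * R * ρ) := by field_simp
    linarith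
  · rw [max_eq_right (by linarith)]
    have h1 := mul_le_mul_of_nonneg_left (L2_ge3 ρ (-(K * R / r))) hr.le
    have e : r * (-(ρ + -(K * R / r)) - 1) = -(r * ρ) + K * R - r := by field_simp; ring
    have e2 : -(K * R * ρ - (K * R - r) * (ρ - 1 / K)) = -(r * ρ) - R + r / K := by
      field_simp; ring
    rw [e2]
    have h2 : r / K ≤ R := by rw [div_le_iff₀ hK]; linarith
    have h3 : r = K * (r / K) := by field_simp
    nlinarith

/-- calibration with a signed speed -/
def Hs (N r R : ℝ) : ℝ := if N = 0 then 0 else N / |N| * Hf |N| r R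

/-- derivative of the calibration -/
def hs (N r R ρ : ℝ) : ℝ :=
  if N = 0 then 0 else N / |N| * (|N| * R * ρ - max 0 (|N| * R - r) * (ρ - 1 / |N|))

theorem hs_le {N r R ρ : ℝ} (hN : N ≤ 0 ∨ 1 ≤ N) (hr : 0 < r) (hR : 0 ≤ R) :
    hs N r R ρ ≤ r * L2 ρ (N * R / r) := by
  unfold hs
  split_ifs with h0
  · rw [h0, zero_mul, zero_div]
    exact mul_nonneg hr.le (L2_zero_nonneg ρ)
  · rcases hN with hN | hN
    · have hN' : N < 0 := lt_of_le_of_ne hN h0
      have h1 : N / |N| = -1 := by rw [abs_of_neg hN', div_neg, div_self h0]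
      have h2 : N * R / r = -(|N| * R / r) := by rw [abs_of_neg hN']; ring
      rw [h1, h2, neg_one_mul]
      exact K2neg (abs_pos.2 h0) hr hR
    · have hN' : 0 < N := by linarith
      rw [abs_of_pos hN', div_self h0, one_mul]
      exact K2pos hN hr hR

theorem abs_Hs_le {N r R : ℝ} (hr : 0 ≤ r) (hR : 0 ≤ R) : |Hs N r R| ≤ r * R := by
  unfold Hs
  split_ifs with h0
  · rw [abs_zero]; positivity
  · have h1 : abs (N / |N|) = 1 := by rw [abs_div, abs_abs, div_self (abs_pos.2 h0).ne']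
    rw [abs_mul, h1, one_mul, abs_of_nonneg (Hf_nonneg (abs_pos.2 h0) hr hR)]
    exact Hf_le' (abs_pos.2 h0) hr hR

theorem abs_Hs_le' {N r R : ℝ} (hr : 0 ≤ r) (hR : 0 ≤ R) : |Hs N r R| ≤ |N| * R ^ 2 / 2 := by
  unfold Hs
  split_ifs with h0
  · rw [abs_zero]; positivity
  · have h1 : abs (N / |N|) = 1 := by rw [abs_div, abs_abs, div_self (abs_pos.2 h0).ne']
    rw [abs_mul, h1, one_mul, abs_of_nonneg (Hf_nonneg (abs_pos.2 h0) hr hR)]
    exact Hf_le (abs_pos.2 h0)

theorem hasDerivAt_posPart_sq (x : ℝ) :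
    HasDerivAt (fun x : ℝ => (max 0 x) ^ 2) (2 * max 0 x) x := by
  rcases lt_trichotomy x 0 with h | h | h
  · rw [max_eq_left h.le, mul_zero]
    refine (hasDerivAt_const x (0 : ℝ)).congr_of_eventuallyEq ?_
    filter_upwards [eventually_lt_nhds h] with y hy
    rw [max_eq_left hy.le]; norm_num
  · subst h
    rw [max_self, mul_zero, hasDerivAt_iff_isLittleO_nhds_zero]
    simp only [zero_add, max_self, ne_eq, OfNat.ofNat_ne_zero, not_false_eq_true, zero_pow,
      sub_zero, smul_zero]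
    refine Asymptotics.IsBigO.trans_isLittleO (g := fun h : ℝ => h ^ 2) ?_ ?_
    · refine Asymptotics.IsBigO.of_bound 1 (Filter.Eventually.of_forall fun y => ?_)
      rw [Real.norm_of_nonneg (show (0 : ℝ) ≤ (max 0 y) ^ 2 by positivity),
        Real.norm_of_nonneg (show (0 : ℝ) ≤ y ^ 2 by positivity), one_mul]
      rcases le_total 0 y with hy | hy
      · rw [max_eq_right hy]
      · rw [max_eq_left hy]
        have := sq_nonneg y
        simpa using this
    · have := Asymptotics.isLittleO_pow_id (𝕜 := ℝ) (n := 2) (by norm_num)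
      exact this
  · rw [max_eq_right h.le]
    have h1 : HasDerivAt (fun x : ℝ => x ^ 2) (2 * x) x := by
      simpa using hasDerivAt_pow 2 x
    refine h1.congr_of_eventuallyEq ?_
    filter_upwards [eventually_gt_nhds h] with y hy
    rw [max_eq_right hy.le]

theorem hasDerivAt_Hf {K : ℝ} (hK : 0 < K) {R : ℝ → ℝ} {ρ r : ℝ} (hR : HasDerivAt R ρ r) :
    HasDerivAt (fun s => Hf K s (R s))
      (K * R r * ρ - max 0 (K * R r - r) * (ρ - 1 / K)) r := by
  have h1 : HasDerivAt (fun s => K * R s ^ 2 / 2) (K * R r * ρ) r := by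
    have h2 := ((hR.pow 2).const_mul K).div_const 2
    refine h2.congr_deriv ?_
    push_cast
    ring
  have h3 : HasDerivAt (fun s => K * R s - s) (K * ρ - 1) r := (hR.const_mul K).sub (hasDerivAt_id r)
  have h4 := HasDerivAt.comp (h := fun s => K * R s - s) r (hasDerivAt_posPart_sq (K * R r - r)) h3
  have h5 := h4.div_const (2 * K)
  have h6 := h1.sub h5
  refine h6.congr_deriv ?_
  field_simp

theorem hasDerivAt_Hs {N : ℝ} {R : ℝ → ℝ} {ρ r : ℝ} (hR : HasDerivAt R ρ r) :
    HasDerivAt (fun s => Hs N s (R s)) (hs N r (R r) ρ) r := by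
  unfold Hs hs
  split_ifs with h0
  · exact hasDerivAt_const r (0 : ℝ)
  · exact (hasDerivAt_Hf (abs_pos.2 h0) hR).const_mul _

end Pool.Agent.Helper7.BU
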